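import Pool.Agent.Y558.IQ.Rev

set_option autoImplicit false

/-! Countermodels and models of the second-order formula. -/

namespace Pool.Agent.Y558.IQ

open Pool.Agent.Results.MP_130315_lc.UncountableDomain Cardinal

universe a b v w

variable {σ : Sig.{a, b}}

/-- the second-order formula: there is a world (variable 1) and an individual (variable 2), and the
state `st 0` is a set of worlds which does not support `φ` -/
def revS [IsEmpty σ.Fn] (c : σ.Pred → ℕ) (φ : Fml σ) : SO :=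
  .an (.un 0 1) (.an (.un 1 2) (.an (.all 0 (.imp (.un (st 0) 0) (.un 0 0))) (.nt (rev c φ 0))))

/-- the set made from a model -/
abbrev BM (M : Model.{a, b, v, v} σ) : Type v := M.W ⊕ (M.D ⊕ ((M.W × M.D) ⊕ (ℕ × M.W × List M.D)))

/-- the unary relations -/
def UM (Q : Set σ.Pred) (c : σ.Pred → ℕ) (M : Model.{a, b, v, v} σ) (S : Set M.W) (n : ℕ) : Set (BM M) :=
  if n = 0 then Set.range Sum.inl else if n = 1 then Set.range (Sum.inr ∘ Sum.inl)
  else if n = 2 then Set.range (Sum.inr ∘ Sum.inr ∘ Sum.inl)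
  else if n % 2 = 1 then {t | ∃ (w : M.W) (P : σ.Pred) (z : Fin (σ.predAr P) → M.D),
    P ∈ Q ∧ 2 * c P + 3 = n ∧ M.predI w P z ∧
      t = Sum.inr (Sum.inr (Sum.inr (c P, w, List.ofFn z)))}
  else Sum.inl '' S

/-- the binary relations -/
def RM (M : Model.{a, b, v, v} σ) (n : ℕ) (x y : BM M) : Prop :=
  match n, x, y with
  | 0, .inr (.inr (.inl (w, _))), .inl w' => w = w'
  | 0, .inr (.inr (.inr (_, w, _))), .inl w' => w = w'
  | 1, .inr (.inr (.inl (w, z))), .inr (.inl x) => M.sim w x z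
  | k + 2, .inr (.inr (.inr (_, w, l))), .inr (.inr (.inl (w', z))) => w = w' ∧ l[k]? = some z
  | _, _, _ => False

theorem repr_M (Q : Set σ.Pred) (c : σ.Pred → ℕ) (hc : Set.InjOn c Q) (M : Model.{a, b, v, v} σ)
    (S : Set M.W) : Repr Q c M (UM Q c M S) (RM M) Sum.inl (Sum.inr ∘ Sum.inl) where
  injW := Sum.inl_injective
  rangeW := rfl
  rangeD := rfl
  sim := by
    intro w x y
    have e : UM Q c M S 2 = Set.range (Sum.inr ∘ Sum.inr ∘ Sum.inl) := rfl
    rw [e]
    constructor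
    · rintro hs _ ⟨⟨w', z⟩, rfl⟩ (rfl : w' = w)
      change M.sim w' x z ↔ M.sim w' y z
      exact ⟨fun h => (M.sim_equiv w').trans ((M.sim_equiv w').symm hs) h,
        fun h => (M.sim_equiv w').trans hs h⟩
    · intro h
      have := h _ ⟨(w, y), rfl⟩ rfl
      exact this.2 ((M.sim_equiv w).refl y)
  pred := by
    intro w P hPQ z
    have e : UM Q c M S 2 = Set.range (Sum.inr ∘ Sum.inr ∘ Sum.inl) := rfl
    have e' : UM Q c M S (2 * c P + 3) = {t | ∃ (w : M.W) (P' : σ.Pred)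
        (z : Fin (σ.predAr P') → M.D), P' ∈ Q ∧ 2 * c P' + 3 = 2 * c P + 3 ∧
          M.predI w P' z ∧
          t = Sum.inr (Sum.inr (Sum.inr (c P', w, List.ofFn z)))} := by
      unfold UM
      rw [if_neg (by omega), if_neg (by omega), if_neg (by omega), if_pos (by omega)]
    rw [e, e']
    constructor
    · intro h
      refine ⟨Sum.inr (Sum.inr (Sum.inr (c P, w, List.ofFn z))), ⟨w, P, z, hPQ, rfl, h, rfl⟩, rfl,
        fun k => ⟨Sum.inr (Sum.inr (Sum.inl (w, z k))), ⟨rfl, ?_⟩, ⟨⟨_, rfl⟩, rfl⟩,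
          (M.sim_equiv w).refl _⟩⟩
      rw [List.getElem?_ofFn]
      simp
    · rintro ⟨_, ⟨w', P', z', hP'Q, hP, hz, rfl⟩, (rfl : w' = w), hk⟩
      have : P' = P := hc hP'Q hPQ (by omega)
      subst this
      refine (M.sim_pred w' P' z z' fun k => ?_).2 hz
      obtain ⟨_, hr1, ⟨⟨⟨w2, z2⟩, rfl⟩, hr3⟩, hr4⟩ := hk k
      obtain ⟨h1, h2⟩ := hr1
      rw [List.getElem?_ofFn] at h2
      have h3 : z' k = z2 := by simpa using h2
      have h4 : w2 = w' := hr3
      have h5 : M.sim w2 (z k) z2 := hr4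
      rw [h3, ← h4]
      exact h5

theorem mk_BM (M : Model.{a, b, v, v} σ) : #(BM M) ≤ max ℵ₀ (max #M.W #M.D) := by
  have h0 : ℵ₀ ≤ max ℵ₀ (max #M.W #M.D) := le_max_left _ _
  have hW : #M.W ≤ max ℵ₀ (max #M.W #M.D) := (le_max_left _ _).trans (le_max_right _ _)
  have hD : #M.D ≤ max ℵ₀ (max #M.W #M.D) := (le_max_right _ _).trans (le_max_right _ _)
  have hL : #(List M.D) ≤ max ℵ₀ (max #M.W #M.D) :=
    (Cardinal.mk_list_le_max _).trans (max_le h0 hD)
  have e : #(BM M) = #M.W + (#M.D + (#M.W * #M.D + ℵ₀ * (#M.W * #(List M.D)))) := by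
    simp only [BM, Cardinal.mk_sum, Cardinal.mk_prod, Cardinal.lift_id, Cardinal.mk_nat,
      Cardinal.lift_aleph0, Cardinal.lift_uzero]
  rw [e]
  exact add_le_of_le h0 hW (add_le_of_le h0 hD (add_le_of_le h0 (mul_le_of_le h0 hW hD)
    (mul_le_of_le h0 h0 (mul_le_of_le h0 hW hL))))

/-- countermodels give models -/
theorem rev_up [IsEmpty σ.Fn] (c : σ.Pred → ℕ) (φ : Fml σ) (hc : Set.InjOn c (prs φ))
    (M : Model.{a, b, v, v} σ) (S : Set M.W) (g : ℕ → M.D)
    (h : ¬ Supports M S g φ) : ∃ (B : Type v) (_ : Nonempty B) (_ : #B ≤ max ℵ₀ (max #M.W #M.D))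
      (s : ℕ → B) (U : ℕ → Set B)
      (R : ℕ → B → B → Prop), (revS c φ).Eval s U R := by
  obtain ⟨d0⟩ := M.nonemptyD
  obtain ⟨w0⟩ := M.nonemptyW
  let s : ℕ → BM M := fun i => if i = 1 then Sum.inl w0 else
    Sum.inr (Sum.inl (if i < 4 then d0 else g (i - 4)))
  refine ⟨BM M, ⟨Sum.inr (Sum.inl d0)⟩, mk_BM M, s, UM (prs φ) c M S, RM M, ?_⟩
  set Q := prs φ with hQ
  unfold revS
  rw [ev_an, ev_an, ev_an, ev_nt]
  have e0 : UM Q c M S (st 0) = Sum.inl '' S := rfl
  have e1 : ∀ x, (Sum.inr (Sum.inl x) : BM M) ∈ UM Q c M S 1 := fun x => ⟨x, rfl⟩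
  have s1 : s 1 = Sum.inl w0 := rfl
  have s2 : s 2 = Sum.inr (Sum.inl d0) := rfl
  have s4 : ∀ i, s (i + 4) = Sum.inr (Sum.inl (g i)) := fun i => by
    change (if i + 4 = 1 then _ else _) = _
    rw [if_neg (by omega), if_neg (by omega)]
    rfl
  refine ⟨⟨w0, rfl⟩, ⟨d0, rfl⟩, ?_, ?_⟩
  · intro x hx
    have hx' : x ∈ UM Q c M S (st 0) := by
      change Function.update s 0 x 0 ∈ UM Q c M S (st 0) at hx
      rwa [Function.update_self] at hx
    rw [e0] at hx'
    obtain ⟨w, -, rfl⟩ := hx'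
    change Function.update s 0 (Sum.inl w) 0 ∈ UM Q c M S 0
    rw [Function.update_self]
    exact ⟨w, rfl⟩
  · rw [← rev_truth Q c M (UM Q c M S) (RM M) Sum.inl (Sum.inr ∘ Sum.inl) (repr_M Q c hc M S) φ
      (fun _ h => h) S g 0 s
      (UM Q c M S) e0 (fun _ => Or.inl rfl) ?_]
    · exact h
    · intro i
      unfold dv
      rw [s4, if_pos (e1 _)]
      rfl

/-- models give countermodels -/
theorem rev_down [IsEmpty σ.Fn] (c : σ.Pred → ℕ) {B : Type v} (φ : Fml σ) (s : ℕ → B)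
    (U : ℕ → Set B) (R : ℕ → B → B → Prop) (h : (revS c φ).Eval s U R) :
    ∃ M : Model.{a, b, v, v} σ, #M.W ≤ #B ∧ #M.D ≤ #B ∧
      ∃ (S : Set M.W) (g : ℕ → M.D), ¬ Supports M S g φ := by
  unfold revS at h
  rw [ev_an, ev_an, ev_an, ev_nt] at h
  obtain ⟨hw0, h1, h2, h3⟩ := h
  have hw0' : s 1 ∈ U 0 := hw0
  have h1' : s 2 ∈ U 1 := h1
  have h2' : ∀ x, x ∈ U (st 0) → x ∈ U 0 := by
    intro x hx
    have := h2 x (by
      change Function.update s 0 x 0 ∈ U (st 0)
      rwa [Function.update_self])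
    change Function.update s 0 x 0 ∈ U 0 at this
    rwa [Function.update_self] at this
  · let M : Model.{a, b, v, v} σ :=
      { W := {x // x ∈ U 0}
        D := {x // x ∈ U 1}
        nonemptyW := ⟨⟨s 1, hw0'⟩⟩
        nonemptyD := ⟨⟨s 2, h1'⟩⟩
        predI := fun w P z => ∃ t, t ∈ U (2 * c P + 3) ∧ R 0 t w.1 ∧ ∀ k,
          ∃ r, R (k.val + 2) t r ∧ (r ∈ U 2 ∧ R 0 r w.1) ∧ R 1 r (z k).1
        fnI := fun _ f _ => isEmptyElim f
        rigid_eq := fun f => isEmptyElim f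
        sim := fun w x y => ∀ r, r ∈ U 2 → R 0 r w.1 → (R 1 r x.1 ↔ R 1 r y.1)
        sim_equiv := fun w => ⟨fun _ _ _ _ => Iff.rfl, fun h r h1 h2 => (h r h1 h2).symm,
          fun h h' r h1 h2 => (h r h1 h2).trans (h' r h1 h2)⟩
        sim_pred := fun w P x y hxy => by
          refine exists_congr fun t => and_congr_right fun _ => and_congr_right fun _ =>
            forall_congr' fun k => exists_congr fun r => and_congr_right fun _ =>
              and_congr_right fun hr => ?_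
          exact hxy k r hr.1 hr.2
        sim_fn := fun _ f => isEmptyElim f }
    have hrep : Repr Set.univ c M U R Subtype.val Subtype.val :=
      { injW := Subtype.val_injective
        rangeW := Subtype.range_val
        rangeD := Subtype.range_val
        sim := fun _ _ _ => Iff.rfl
        pred := fun _ _ _ _ => Iff.rfl }
    classical
    let g : ℕ → M.D := fun i => if h : s (i + 4) ∈ U 1 then ⟨s (i + 4), h⟩ else ⟨s 2, h1'⟩
    refine ⟨M, Cardinal.mk_subtype_le _, Cardinal.mk_subtype_le _, {w | w.1 ∈ U (st 0)}, g, ?_⟩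
    rw [rev_truth Set.univ c M U R Subtype.val Subtype.val hrep φ (Set.subset_univ _)
      {w | w.1 ∈ U (st 0)} g 0 s U ?_
      (fun _ => Or.inl rfl) ?_]
    · exact h3
    · ext x
      constructor
      · intro hx
        exact ⟨⟨x, h2' x hx⟩, hx, rfl⟩
      · rintro ⟨w, hw, rfl⟩
        exact hw
    · intro i
      unfold dv
      by_cases hi : s (i + 4) ∈ U 1
      · rw [if_pos hi]
        simp [g, hi]
      · rw [if_neg hi]
        simp [g, hi]

end Pool.Agent.Y558.IQ
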