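import Pool.Agent.Y558.IQ.Sol

set_option autoImplicit false

/-! Second-order formulas with free individual variables. -/

namespace Pool.Agent.Y558.IQ

open Cardinal

universe v w

/-- a bound for the free individual variables -/
def SO.bd : SO → ℕ
  | .eq i j => i + j + 1
  | .un _ i => i + 1
  | .bi _ i j => i + j + 1
  | .bot => 0
  | .imp φ ψ => φ.bd + ψ.bd
  | .all _ φ => φ.bd
  | .allU _ φ => φ.bd
  | .allB _ φ => φ.bd

theorem SO.lt_bd (Θ : SO) : ∀ i ∈ Θ.FV, i < Θ.bd := by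
  induction Θ with
  | eq i j =>
    intro k hk
    simp only [SO.FV, Set.mem_insert_iff, Set.mem_singleton_iff] at hk
    simp only [SO.bd]
    omega
  | un X i =>
    intro k hk
    simp only [SO.FV, Set.mem_singleton_iff] at hk
    simp only [SO.bd]
    omega
  | bi Y i j =>
    intro k hk
    simp only [SO.FV, Set.mem_insert_iff, Set.mem_singleton_iff] at hk
    simp only [SO.bd]
    omega
  | bot => intro k hk; exact absurd hk (Set.notMem_empty k)
  | imp φ ψ ih1 ih2 =>
    intro k hk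
    simp only [SO.bd]
    rcases hk with hk | hk
    · have := ih1 k hk; omega
    · have := ih2 k hk; omega
  | all i φ ih => intro k hk; exact ih k hk.1
  | allU X φ ih => intro k hk; exact ih k hk
  | allB Y φ ih => intro k hk; exact ih k hk

/-- the individual variables below `n` are elements of the universe -/
def gd : ℕ → FO
  | 0 => .eq 0 0
  | n + 1 => .and (.mem (vi n) 1) (gd n)

theorem holds_gd {A : Type v} (E : A → A → Prop) (g : ℕ → A) (n : ℕ) :
    Holds E (gd n) g ↔ ∀ i < n, E (g (vi i)) (g 1) := by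
  induction n with
  | zero => simp [gd, Holds]
  | succ n ih =>
    change (E (g (vi n)) (g 1) ∧ Holds E (gd n) g) ↔ _
    rw [ih]
    constructor
    · rintro ⟨h1, h2⟩ i hi
      rcases Nat.lt_succ_iff_lt_or_eq.1 hi with h | h
      · exact h2 i h
      · rw [h]; exact h1
    · intro h
      exact ⟨h n (Nat.lt_succ_self n), fun i hi => h i (by omega)⟩

/-- the first-order formula -/
def psi4 (Θ : SO) : FO := .and (gd Θ.bd) (psi3 Θ)

theorem so_down2 {A : Type v} (E : A → A → Prop) (g : ℕ → A) (hF : Full (g 0) E) (Θ : SO)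
    (h : Holds E (psi4 Θ) g) :
    ∃ B : Type v, Nonempty B ∧ #B ≤ #A ∧ #B ≤ #{x : A // x ≠ g 0} ∧
      ∃ s U R, Θ.Eval (B := B) s U R := by
  classical
  obtain ⟨h0, h⟩ := h
  rw [holds_gd] at h0
  rw [holds_psi3] at h
  obtain ⟨hq, ⟨x0, hx0⟩, hP, hso⟩ := h
  refine ⟨{x // E x (g 1)}, ⟨⟨x0, hx0⟩⟩, Cardinal.mk_subtype_le _, ?_,
    fun i => if h : i < Θ.bd then ⟨g (vi i), h0 i h⟩ else ⟨x0, hx0⟩,
    fun X => {x | E x.1 (g (vu X))},
    fun Y x y => ∃ π, E π (g 2) ∧ E π (g (vb Y)) ∧ E x.1 π ∧ E π y.1, ?_⟩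
  · refine Cardinal.mk_le_of_injective
      (f := fun z : {x // E x (g 1)} => (⟨z.1, hq _ _ z.2⟩ : {x : A // x ≠ g 0})) ?_
    intro x y h
    have h' := congrArg Subtype.val h
    exact Subtype.ext h'
  · refine (so_truth E (g 0) (g 1) (g 2) hq hF Subtype.val Subtype.val_injective
      (fun x => ⟨fun h => ⟨⟨x, h⟩, rfl⟩, fun ⟨b, hb⟩ => hb ▸ b.2⟩) hP Θ g _ _ _ rfl rfl
      ?_ ?_ ?_).1 hso
    · intro i hi
      rw [dif_pos (Θ.lt_bd i hi)]
    · intro X x
      exact Iff.rfl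
    · intro Y x y
      exact Iff.rfl

theorem so_up2 {B : Type v} (Θ : SO) (s : ℕ → B) (U : ℕ → Set B) (R : ℕ → B → B → Prop)
    (h : Θ.Eval s U R) : Holds E3 (psi4 Θ) (g3 s U R) := by
  refine ⟨(holds_gd _ _ _).2 fun i _ => ?_, so_up Θ s U R h⟩
  have k1 : g3 s U R 1 = Y3 (Set.range Sum.inl) := rfl
  have k3 : g3 s U R (vi i) = X3 (s i) := by
    have e1 : (3 * i + 4) % 3 = 1 := by omega
    have e2 : (3 * i + 4 - 4) / 3 = i := by omega
    unfold g3 vi
    rw [if_neg (by omega), if_neg (by omega), if_neg (by omega), if_pos e1, e2]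
  rw [k1, k3, E3_beta]
  exact ⟨_, rfl⟩

end Pool.Agent.Y558.IQ
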