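import Pool.Agent.Y558.IQ.Sol

set_option autoImplicit false

/-! A second-order sentence which is true exactly in the uncountable sets. -/

namespace Pool.Agent.Y558.IQ

universe v

/-- no element and no functional relation generate the universe -/
def unc : SO :=
  .allB 0 (.all 0 (.imp (.all 1 (.all 2 (.all 3 (.imp (.bi 0 1 2) (.imp (.bi 0 1 3) (.eq 2 3))))))
    (.imp (.allU 0 (.imp (.un 0 0) (.imp
      (.all 1 (.all 2 (.imp (.un 0 1) (.imp (.bi 0 1 2) (.un 0 2))))) (.all 1 (.un 0 1))))) .bot)))

theorem unc_FV : unc.FV = ∅ := by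
  ext i
  simp [unc, SO.FV]

theorem unc_eval {B : Type v} (s : ℕ → B) (U : ℕ → Set B) (R : ℕ → B → B → Prop) :
    unc.Eval s U R ↔ ∀ (r : B → B → Prop) (z : B), (∀ x y y', r x y → r x y' → y = y') →
      ¬ ∀ X : Set B, z ∈ X → (∀ x y, x ∈ X → r x y → y ∈ X) → ∀ x, x ∈ X := by
  simp [unc, SO.Eval, Function.update]

theorem unc_iff {B : Type v} [Nonempty B] (s : ℕ → B) (U : ℕ → Set B) (R : ℕ → B → B → Prop) :
    unc.Eval s U R ↔ ¬ Countable B := by
  classical
  rw [unc_eval]
  constructor
  · intro h hc
    obtain ⟨e, he⟩ := Countable.exists_injective_nat B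
    obtain ⟨z, -, hz⟩ := (InvImage.wf e Nat.lt_wfRel.wf).has_min (Set.univ : Set B)
      ⟨Classical.arbitrary B, trivial⟩
    have hz' : ∀ x, e z ≤ e x := fun x => not_lt.1 (hz x trivial)
    refine h (fun x y => e x < e y ∧ ∀ w, e x < e w → e y ≤ e w) z ?_ ?_
    · rintro x y y' ⟨h1, h2⟩ ⟨h3, h4⟩
      exact he (le_antisymm (h2 _ h3) (h4 _ h1))
    · intro X hzX hX
      have key : ∀ n, ∀ x, e x = n → x ∈ X := by
        intro n
        induction n using Nat.strong_induction_on with
        | _ n ih =>
          intro x hx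
          by_cases hxz : x = z
          · rw [hxz]
            exact hzX
          have hlt : e z < e x := lt_of_le_of_ne (hz' x) fun h => hxz (he h).symm
          have hne : {m | m < e x ∧ ∃ y, e y = m}.Nonempty := ⟨e z, hlt, z, rfl⟩
          have hbd : BddAbove {m | m < e x ∧ ∃ y, e y = m} := ⟨e x, fun m hm => hm.1.le⟩
          obtain ⟨h1, y, hy⟩ := Nat.sSup_mem hne hbd
          rw [← hy] at h1
          refine hX y x (ih (e y) (hx ▸ h1) y rfl) ⟨h1, fun w hw => ?_⟩
          by_contra hcon
          have := le_csSup hbd (⟨not_le.1 hcon, w, rfl⟩ : e w ∈ {m | m < e x ∧ ∃ y, e y = m})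
          rw [← hy] at this
          omega
      exact fun x => key _ x rfl
  · intro hB r z hr hall
    apply hB
    let f : B → B := fun x => if h : ∃ y, r x y then h.choose else x
    have hf : ∀ x y, r x y → f x = y := by
      intro x y hxy
      have h : ∃ y, r x y := ⟨y, hxy⟩
      have : f x = h.choose := dif_pos h
      rw [this]
      exact hr _ _ _ h.choose_spec hxy
    have := hall (Set.range fun n => f^[n] z) ⟨0, rfl⟩ (by
      rintro x y ⟨n, rfl⟩ hxy
      refine ⟨n + 1, ?_⟩
      change f^[n + 1] z = y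
      rw [Function.iterate_succ_apply']
      exact hf _ _ hxy)
    exact Function.Surjective.countable (f := fun n => f^[n] z) this

end Pool.Agent.Y558.IQ
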