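import Pool.Agent.Y558.IQ.Gen

set_option autoImplicit false

/-! Structures with full separation give refutations of the formula. -/

namespace Pool.Agent.Y558.IQ

open Pool.Agent.Results.MP_130315_lc.UncountableDomain Cardinal

universe a b v

variable {A : Type v}

/-- The relation `R` of the countermodel at the world `w`. -/
def rel (q : A) (E : A → A → Prop) (w : {x : A // x ≠ q} × Bool) (x y : A) : Prop :=
  (x ≠ y ∧ E x y) ∨ (x = y ∧ ((x ≠ q ∧ w.1.1 = x) ∨ (x = q ∧ w.2 = true)))

/-- The countermodel. -/
def cmo (σ : Sig.{a, b}) (R : σ.Pred) (q : A) (E : A → A → Prop) (hq : ∃ x : A, x ≠ q) :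
    Model.{a, b, v, v} σ where
  W := {x : A // x ≠ q} × Bool
  D := A
  nonemptyW := by
    obtain ⟨x, hx⟩ := hq
    exact ⟨(⟨x, hx⟩, true)⟩
  nonemptyD := ⟨q⟩
  predI w P z := P = R ∧ ∃ x y : A, rel q E w x y ∧ (∀ i, i.val = 0 → z i = x) ∧
    (∀ i, i.val = 1 → z i = y)
  fnI _ _ _ := q
  rigid_eq _ _ _ _ := rfl
  sim _ x y := x = y
  sim_equiv _ := ⟨fun _ => rfl, fun h => h.symm, fun h h' => h.trans h'⟩
  sim_pred w P x y h := by
    have : x = y := funext h
    rw [this]
  sim_fn _ _ _ _ _ := rfl

theorem up {σ : Sig.{a, b}} (R : σ.Pred) (hR : 2 ≤ σ.predAr R) (ψ : FO) (E : A → A → Prop)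
    (g : ℕ → A) (hE : ∀ x, ¬ E x x) (hF : Full (g 0) E) (hψ : Holds E ψ g)
    (hq : ∃ x : A, x ≠ g 0) :
    ∃ (M : Model.{a, b, v, v} σ), #M.W = #({x : A // x ≠ g 0} × Bool) ∧ #M.D = #A ∧
      ∃ (s : Set M.W) (g : ℕ → M.D), ¬ Supports M s g (fm R ψ) := by
  classical
  let M := cmo σ R (g 0) E hq
  refine ⟨M, rfl, rfl, Set.univ, g, ?_⟩
  have hsim : ∀ (w : M.W) (x y : M.D), M.sim w x y ↔ x = y := fun _ _ _ => Iff.rfl
  have hRR : ∀ (w : M.W) (x y : A), RR M R w x y ↔ rel (g 0) E w x y := by
    intro w x y
    constructor
    · rintro ⟨_, x', y', h, hx, hy⟩
      have h0 : x = x' := hx ⟨0, by omega⟩ rfl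
      have h1 : y = y' := hy ⟨1, by omega⟩ rfl
      rw [h0, h1]
      exact h
    · intro h
      refine ⟨rfl, x, y, h, ?_, ?_⟩
      · intro i hi
        exact if_pos hi
      · intro i hi
        exact if_neg (by omega)
  have hoff : ∀ (w : M.W) (x y : A), x ≠ y → (RR M R w x y ↔ E x y) := by
    intro w x y hxy
    rw [hRR]
    constructor
    · rintro (h | h)
      · exact h.2
      · exact absurd h.1 hxy
    · intro h
      exact Or.inl ⟨hxy, h⟩
  have hdiag : ∀ (w : M.W) (x : A), x ≠ g 0 → (RR M R w x x ↔ w.1.1 = x) := by
    intro w x hx
    rw [hRR]
    constructor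
    · rintro (h | ⟨_, h | h⟩)
      · exact absurd rfl h.1
      · exact h.2
      · exact absurd h.1 hx
    · intro h
      exact Or.inr ⟨rfl, Or.inl ⟨hx, h⟩⟩
  have hbit : ∀ (w : M.W), RR M R w (g 0) (g 0) ↔ w.2 = true := by
    intro w
    rw [hRR]
    constructor
    · rintro (h | ⟨_, h | h⟩)
      · exact absurd rfl h.1
      · exact absurd rfl h.1
      · exact h.2
    · intro h
      exact Or.inr ⟨rfl, Or.inr ⟨rfl, h⟩⟩
  intro hsup
  have hth : Supports M Set.univ g (th R ψ) := by
    refine ⟨?_, ?_, ?_, ?_, ?_⟩
    · intro x y
      rw [supports_whether, supports_ee]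
      by_cases hxy : x = y
      · left
        intro w _
        rw [hsim]
        simpa [Function.update] using hxy
      · right
        intro w _ hs
        rw [supports_ee] at hs
        have := (hsim _ _ _).1 (hs w rfl)
        exact hxy (by simpa [Function.update] using this)
    · intro x y u _ hne
      rw [sup_neg_ee] at hne
      rw [supports_whether, supports_rr]
      by_cases hemp : u = ∅
      · left
        intro w hw
        rw [hemp] at hw
        exact absurd hw (Set.notMem_empty w)
      obtain ⟨w0, hw0⟩ := Set.nonempty_iff_ne_empty.mpr hemp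
      have hxy : x ≠ y := by
        intro h
        apply hne w0 hw0
        rw [hsim]
        simpa [Function.update] using h
      by_cases hxE : E x y
      · left
        intro w _
        have := (hoff w x y hxy).2 hxE
        simpa [Function.update] using this
      · right
        intro w _ hs
        rw [supports_rr] at hs
        have : RR M R w x y := by simpa [Function.update] using hs w rfl
        exact hxE ((hoff w x y hxy).1 this)
    · rintro x y u _ ⟨⟨h1, h2⟩, h3, h4⟩
      rw [sup_na] at h1 h2
      rw [supports_rr] at h3 h4
      rw [supports_ee]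
      intro w hw
      have k1 : x ≠ g 0 := by
        intro he
        apply h1 w hw
        rw [hsim]
        simpa [Function.update] using he
      have k2 : y ≠ g 0 := by
        intro he
        apply h2 w hw
        rw [hsim]
        simpa [Function.update] using he
      have k3 : w.1.1 = x := (hdiag w x k1).1 (by simpa [Function.update] using h3 w hw)
      have k4 : w.1.1 = y := (hdiag w y k2).1 (by simpa [Function.update] using h4 w hw)
      have k5 : x = y := k3.symm.trans k4
      rw [hsim]
      simpa [Function.update] using k5
    · intro p u _ hα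
      -- the coded set
      obtain ⟨y, hy⟩ := hF p {x | ∃ h : x ≠ g 0, ((⟨x, h⟩, true) : {x : A // x ≠ g 0} × Bool) ∈ u}
      refine ⟨y, ?_⟩
      intro z v hv hnm v' hv' hRz
      rw [sup_na] at hnm
      rw [supports_rr] at hRz
      have key : ∀ w ∈ v', z ≠ g 0 ∧ (E z y ↔ E z p ∧ w.2 = true) := by
        intro w hw
        have hz : z ≠ g 0 := by
          intro he
          apply hnm w (hv' hw)
          rw [hsim]
          simpa [Function.update] using he
        have hwz : w.1.1 = z := (hdiag w z hz).1 (by simpa [Function.update] using hRz w hw)
        refine ⟨hz, ?_⟩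
        rw [hy z hz]
        refine and_congr_right fun _ => ?_
        have hwu : w ∈ u := hv (hv' hw)
        constructor
        · rintro ⟨h, hzu⟩
          by_contra hb
          have hh := hα z {((⟨z, h⟩, true) : {x : A // x ≠ g 0} × Bool), w} (by
            intro x hx
            rcases hx with hx | hx
            · rw [hx]; exact hzu
            · rw [single_mem hx]; exact hwu) (by
            rw [sup_na]
            intro x _ hs
            rw [hsim] at hs
            exact hz (by simpa [Function.update] using hs))
            {((⟨z, h⟩, true) : {x : A // x ≠ g 0} × Bool), w} (Set.Subset.refl _) (by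
            rw [supports_rr]
            intro x hx
            have : RR M R x z z := by
              rw [hdiag x z hz]
              rcases hx with hx | hx
              · rw [hx]
              · rw [single_mem hx]; exact hwz
            simpa [Function.update] using this)
          rw [supports_whether] at hh
          rcases hh with hh | hh
          · rw [supports_rr] at hh
            have h3 := hh w (Or.inr rfl)
            have h4 : RR M R w (g 0) (g 0) := by simpa [Function.update] using h3
            exact hb ((hbit w).1 h4)
          · apply hh ((⟨z, h⟩, true) : {x : A // x ≠ g 0} × Bool) (Or.inl rfl)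
            rw [supports_rr]
            intro x hx
            rw [single_mem hx]
            have : RR M R ((⟨z, h⟩, true) : {x : A // x ≠ g 0} × Bool) (g 0) (g 0) :=
              (hbit _).2 rfl
            simpa [Function.update] using this
        · intro hw2
          refine ⟨hz, ?_⟩
          have : w = ((⟨z, hz⟩, true) : {x : A // x ≠ g 0} × Bool) :=
            Prod.ext (Subtype.ext hwz) hw2
          rw [← this]
          exact hwu
      refine ⟨?_, ?_⟩
      · intro v2 hv2 h1
        rw [sup_me] at h1
        refine ⟨?_, ?_⟩
        · rw [sup_me]
          intro w hw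
          obtain ⟨hz, k⟩ := key w (hv2 hw)
          obtain ⟨l1, l2⟩ := h1 w hw
          rw [hsim] at l1
          have l1' : z ≠ y := by simpa [Function.update] using l1
          have l2' : RR M R w z y := by simpa [Function.update] using l2
          have l3 : E z p := (k.1 ((hoff w z y l1').1 l2')).1
          have l4 : z ≠ p := by
            intro he
            rw [he] at l3
            exact hE _ l3
          rw [hsim]
          refine ⟨by simpa [Function.update] using l4, ?_⟩
          have := (hoff w z p l4).2 l3
          simpa [Function.update] using this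
        · rw [supports_rr]
          intro w hw
          obtain ⟨hz, k⟩ := key w (hv2 hw)
          obtain ⟨l1, l2⟩ := h1 w hw
          rw [hsim] at l1
          have l1' : z ≠ y := by simpa [Function.update] using l1
          have l2' : RR M R w z y := by simpa [Function.update] using l2
          have := (hbit w).2 (k.1 ((hoff w z y l1').1 l2')).2
          simpa [Function.update] using this
      · rintro v2 hv2 ⟨h1, h2⟩
        rw [sup_me] at h1
        rw [supports_rr] at h2
        rw [sup_me]
        intro w hw
        obtain ⟨hz, k⟩ := key w (hv2 hw)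
        obtain ⟨l1, l2⟩ := h1 w hw
        rw [hsim] at l1
        have l1' : z ≠ p := by simpa [Function.update] using l1
        have l2' : RR M R w z p := by simpa [Function.update] using l2
        have l3 : E z p := (hoff w z p l1').1 l2'
        have l4 : w.2 = true := (hbit w).1 (by simpa [Function.update] using h2 w hw)
        have l5 : E z y := k.2 ⟨l3, l4⟩
        have l6 : z ≠ y := by
          intro he
          rw [he] at l5
          exact hE _ l5
        rw [hsim]
        refine ⟨by simpa [Function.update] using l6, ?_⟩
        have := (hoff w z y l6).2 l5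
        simpa [Function.update] using this
    · refine (truth M R Set.univ E (id : A → A) Function.surjective_id hE (fun w _ x y => Iff.rfl)
        (fun w _ x y hxy => hoff w x y hxy) ψ g Set.univ (Set.Subset.refl _)).2 fun _ => hψ
  rcases hsup Set.univ (Set.Subset.refl _) hth with ⟨x, hx, h⟩ | ⟨x, hx, h⟩
  · rw [sup_na] at hx
    have hx' : x ≠ g 0 := by
      intro he
      obtain ⟨w⟩ := M.nonemptyW
      apply hx w (Set.mem_univ _)
      rw [hsim]
      simpa [Function.update] using he
    let w : M.W := ((⟨x, hx'⟩, false) : {x : A // x ≠ g 0} × Bool)
    have h1 := h {w} (Set.subset_univ _) (by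
      rw [supports_rr]
      intro w' hw'
      rw [single_mem hw']
      have := (hdiag w x hx').2 rfl
      simpa [Function.update] using this)
    rw [supports_rr] at h1
    have h2 : RR M R w (g 0) (g 0) := by simpa [Function.update] using h1 w rfl
    exact Bool.noConfusion ((hbit w).1 h2)
  · rw [sup_na] at hx
    have hx' : x ≠ g 0 := by
      intro he
      obtain ⟨w⟩ := M.nonemptyW
      apply hx w (Set.mem_univ _)
      rw [hsim]
      simpa [Function.update] using he
    let w : M.W := ((⟨x, hx'⟩, true) : {x : A // x ≠ g 0} × Bool)
    have h1 := h {w} (Set.subset_univ _) (by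
      rw [supports_rr]
      intro w' hw'
      rw [single_mem hw']
      have := (hdiag w x hx').2 rfl
      simpa [Function.update] using this)
    rw [supports_neg] at h1
    apply h1 w rfl
    rw [supports_rr]
    intro w' hw'
    rw [single_mem hw']
    have := (hbit w).2 rfl
    simpa [Function.update] using this

end Pool.Agent.Y558.IQ
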