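import Pool.Agent.Y558.IQ.Gen

set_option autoImplicit false

/-! A first-order formula whose structures with full separation have at least `ℶ_ω` elements. -/

namespace Pool.Agent.Y558.IQ

open Cardinal Ordinal

universe v

/-- members are names; there is an infinite element; there are power elements -/
def psi1 : FO :=
  .and (.all 1 (.all 2 (.imp (.mem 1 2) (.imp (.eq 1 0) .bot))))
  (.and (.ex 1 (.and (.ex 2 (.mem 2 1)) (.and
      (.all 2 (.imp (.mem 2 1) (.ex 3 (.and (.mem 3 1) (.mem 2 3)))))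
      (.all 2 (.all 3 (.all 4 (.imp (.and (.mem 2 3) (.mem 3 4))
        (.imp (.and (.mem 2 1) (.and (.mem 3 1) (.mem 4 1))) (.mem 2 4)))))))))
  (.all 1 (.ex 2 (.all 3 (.ex 4 (.and (.mem 4 2) (.all 5 (.and
    (.imp (.mem 5 4) (.and (.mem 5 1) (.mem 5 3)))
    (.imp (.and (.mem 5 1) (.mem 5 3)) (.mem 5 4))))))))))

variable {A : Type v}

theorem holds_psi1 (E : A → A → Prop) (g : ℕ → A) :
    Holds E psi1 g ↔ (∀ x p, E x p → x ≠ g 0) ∧
      (∃ c, (∃ z, E z c) ∧ (∀ z, E z c → ∃ y, E y c ∧ E z y) ∧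
        ∀ x y z, E x y → E y z → E x c → E y c → E z c → E x z) ∧
      ∀ p, ∃ P, ∀ y, ∃ y', E y' P ∧ ∀ z, E z y' ↔ E z p ∧ E z y := by
  simp [psi1, Holds, Function.update, iff_def]

theorem inf_ext (E : A → A → Prop) (hE : ∀ x, ¬ E x x) (c : A) (h1 : ∃ z, E z c)
    (h2 : ∀ z, E z c → ∃ y, E y c ∧ E z y)
    (h3 : ∀ x y z, E x y → E y z → E x c → E y c → E z c → E x z) :
    Infinite {z // E z c} := by
  by_contra hfin
  rw [not_infinite_iff_finite] at hfin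
  let r : {z // E z c} → {z // E z c} → Prop := fun x y => E y.1 x.1
  have : Std.Irrefl r := ⟨fun x => hE x.1⟩
  have : IsTrans _ r := ⟨fun x y z hxy hyz => h3 z.1 y.1 x.1 hyz hxy z.2 y.2 x.2⟩
  have hwf : WellFounded r := Finite.wellFounded_of_trans_of_irrefl r
  obtain ⟨z, hz⟩ := h1
  obtain ⟨m, -, hm⟩ := hwf.has_min Set.univ ⟨⟨z, hz⟩, trivial⟩
  obtain ⟨y, hy, hmy⟩ := h2 m.1 m.2
  exact hm ⟨y, hy⟩ trivial hmy

/-- a power element has at least `2 ^ κ` members -/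
theorem pow_ext (E : A → A → Prop) (q : A) (hq : ∀ x p, E x p → x ≠ q) (hF : Full q E)
    (p P : A) (B : A → Prop) (hB : ∀ z, E z p → B z)
    (h : ∀ y, ∃ y', E y' P ∧ B y' ∧ ∀ z, B z → (E z y' ↔ E z p ∧ E z y)) :
    2 ^ #{z // E z p} ≤ #{z // E z P ∧ B z} := by
  have key : ∀ S : Set {z // E z p}, ∃ y', (E y' P ∧ B y') ∧
      ∀ z : {z // E z p}, (E z.1 y' ↔ z ∈ S) := by
    intro S
    obtain ⟨y, hy⟩ := hF p (Subtype.val '' S)
    obtain ⟨y', h1, h2, h3⟩ := h y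
    refine ⟨y', ⟨h1, h2⟩, ?_⟩
    intro z
    rw [h3 z.1 (hB _ z.2), hy z.1 (hq _ _ z.2)]
    constructor
    · rintro ⟨-, -, z', hz', he⟩
      rwa [← Subtype.ext he]
    · intro hz
      exact ⟨z.2, z.2, z, hz, rfl⟩
  choose f hf1 hf2 using key
  rw [← Cardinal.mk_set]
  refine Cardinal.mk_le_of_injective (f := fun S => (⟨f S, hf1 S⟩ : {z // E z P ∧ B z})) ?_
  intro S T hST
  have : f S = f T := congrArg Subtype.val hST
  ext z
  rw [← hf2 S z, ← hf2 T z, this]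

/-- the lower bound -/
theorem beth_le (E : A → A → Prop) (hE : ∀ x, ¬ E x x) (g : ℕ → A) (hF : Full (g 0) E)
    (hψ : Holds E psi1 g) : ℶ_ ω ≤ #A ∧ ℶ_ ω ≤ #{x : A // x ≠ g 0} := by
  rw [holds_psi1] at hψ
  obtain ⟨hq, ⟨c, h1, h2, h3⟩, hP⟩ := hψ
  have key : ∀ n : ℕ, ∃ p : A, ℶ_ (n : Ordinal.{v}) ≤ #{z // E z p} := by
    intro n
    induction n with
    | zero =>
      refine ⟨c, ?_⟩
      have := inf_ext E hE c h1 h2 h3
      simp
    | succ n ih =>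
      obtain ⟨p, hp⟩ := ih
      obtain ⟨P, hPp⟩ := hP p
      refine ⟨P, ?_⟩
      have := pow_ext E (g 0) hq hF p P (fun _ => True) (fun _ _ => trivial) (by
        intro y
        obtain ⟨y', k1, k2⟩ := hPp y
        exact ⟨y', k1, trivial, fun z _ => k2 z⟩)
      have h4 : #{z // E z P ∧ True} ≤ #{z // E z P} :=
        Cardinal.mk_le_of_injective (f := fun x => (⟨x.1, x.2.1⟩ : {z // E z P}))
          (fun x y h => by
            have h' := congrArg Subtype.val h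
            exact Subtype.ext h')
      have h5 : ℶ_ ((n + 1 : ℕ) : Ordinal.{v}) = 2 ^ ℶ_ (n : Ordinal.{v}) := by
        rw [Nat.cast_add, Nat.cast_one, beth_add_one]
      rw [h5]
      exact (Cardinal.power_le_power_left two_ne_zero hp).trans (this.trans h4)
  have hA : ∀ B : A → Prop, (∀ x p, E x p → B x) → ℶ_ ω ≤ #{x // B x} := by
    intro B hB
    rw [beth_limit isSuccLimit_omega0]
    refine ciSup_le' ?_
    rintro ⟨o, ho⟩
    obtain ⟨n, rfl⟩ := Ordinal.lt_omega0.1 ho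
    obtain ⟨p, hp⟩ := key n
    exact hp.trans (Cardinal.mk_le_of_injective
      (f := fun x : {z // E z p} => (⟨x.1, hB _ _ x.2⟩ : {x // B x}))
      (fun x y h => by
        have h' := congrArg Subtype.val h
        exact Subtype.ext h'))
  exact ⟨(hA (fun _ => True) fun _ _ _ => trivial).trans (Cardinal.mk_subtype_le _),
    hA (fun x => x ≠ g 0) hq⟩

/-- the levels of the model -/
def T : ℕ → Type
  | 0 => ℕ
  | n + 1 => Set (T n)

/-- membership between the elements of the levels -/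
def EE (s : Σ n, T n) : (Σ n, T n) → Prop
  | ⟨0, b⟩ => ∃ a : ℕ, s = ⟨0, a⟩ ∧ a < (b : ℕ)
  | ⟨m + 1, Y⟩ => ∃ x : T m, s = ⟨m, x⟩ ∧ @Membership.mem (T m) (Set (T m)) _ Y x

/-- membership with the additional element -/
def E1 : Option (Σ n, T n) → Option (Σ n, T n) → Prop
  | some x, some y => EE x y
  | _, _ => False

theorem E1_right (z : Option (Σ n, T n)) (y : Σ n, T n) : E1 z (some y) ↔ ∃ x, z = some x ∧ EE x y := by
  cases z with
  | none => simp [E1]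
  | some x => simp [E1]

theorem E1_none (z : Option (Σ n, T n)) : ¬ E1 z none := by
  cases z <;> simp [E1]

theorem EE_zero (s : Σ n, T n) (b : ℕ) : EE s ⟨0, b⟩ ↔ ∃ a : ℕ, s = ⟨0, a⟩ ∧ a < b := Iff.rfl

theorem EE_succ (s : Σ n, T n) (m : ℕ) (Y : Set (T m)) :
    EE s ⟨m + 1, Y⟩ ↔ ∃ x : T m, s = ⟨m, x⟩ ∧ x ∈ Y := Iff.rfl

theorem model1 : (∀ x, ¬ E1 x x) ∧ Full none E1 ∧ Holds E1 psi1 (fun _ => none) := by
  refine ⟨?_, ?_, ?_⟩
  · intro x hx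
    cases x with
    | none => exact hx
    | some s =>
      obtain ⟨n, x⟩ := s
      cases n with
      | zero =>
        obtain ⟨a, h1, h2⟩ := (EE_zero _ _).1 hx
        have h3 : (x : ℕ) = a := eq_of_heq (Sigma.mk.inj_iff.1 h1).2
        exact absurd h3 (Nat.ne_of_gt h2)
      | succ n =>
        obtain ⟨a, h1, h2⟩ := (EE_succ _ _ _).1 hx
        have := congrArg Sigma.fst h1
        simp at this
  · rintro (_ | ⟨_ | n, x⟩) S
    · refine ⟨none, fun z _ => ?_⟩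
      simp [E1_none]
    · refine ⟨some ⟨1, ({a : ℕ | a < (x : ℕ) ∧ (some ⟨0, a⟩ : Option (Σ n, T n)) ∈ S} : Set ℕ)⟩,
        fun z _ => ?_⟩
      rw [E1_right, E1_right]
      constructor
      · rintro ⟨s, rfl, hs⟩
        obtain ⟨a, rfl, ha⟩ := (EE_succ _ 0 _).1 hs
        exact ⟨⟨_, rfl, (EE_zero _ _).2 ⟨a, rfl, ha.1⟩⟩, ha.2⟩
      · rintro ⟨⟨s, rfl, hs⟩, hS⟩
        obtain ⟨a, rfl, ha⟩ := (EE_zero _ _).1 hs
        exact ⟨_, rfl, (EE_succ _ 0 _).2 ⟨a, rfl, ha, hS⟩⟩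
    · refine ⟨some ⟨n + 1, ({a : T n | @Membership.mem (T n) (Set (T n)) _ x a ∧
        (some ⟨n, a⟩ : Option (Σ n, T n)) ∈ S} : Set (T n))⟩, fun z _ => ?_⟩
      rw [E1_right, E1_right]
      constructor
      · rintro ⟨s, rfl, hs⟩
        obtain ⟨a, rfl, ha⟩ := (EE_succ _ n _).1 hs
        exact ⟨⟨_, rfl, (EE_succ _ _ _).2 ⟨a, rfl, ha.1⟩⟩, ha.2⟩
      · rintro ⟨⟨s, rfl, hs⟩, hS⟩
        obtain ⟨a, rfl, ha⟩ := (EE_succ _ _ _).1 hs
        exact ⟨_, rfl, (EE_succ _ _ _).2 ⟨a, rfl, ha, hS⟩⟩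
  · rw [holds_psi1]
    refine ⟨?_, ⟨some ⟨1, (Set.univ : Set ℕ)⟩, ?_, ?_, ?_⟩, ?_⟩
    · rintro x p h rfl
      exact h
    · exact ⟨some ⟨0, (0 : ℕ)⟩, (EE_succ _ 0 _).2 ⟨(0 : ℕ), rfl, trivial⟩⟩
    · intro z hz
      rw [E1_right] at hz
      obtain ⟨s, rfl, hs⟩ := hz
      obtain ⟨a, rfl, -⟩ := (EE_succ _ 0 _).1 hs
      exact ⟨some ⟨0, Nat.succ a⟩, (EE_succ _ 0 _).2 ⟨_, rfl, trivial⟩,
        (EE_zero _ _).2 ⟨a, rfl, Nat.lt_succ_self _⟩⟩
    · intro x y z hxy hyz hx hy hz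
      rw [E1_right] at hx hy hz
      obtain ⟨s, rfl, hs⟩ := hx
      obtain ⟨s', rfl, hs'⟩ := hy
      obtain ⟨s'', rfl, hs''⟩ := hz
      obtain ⟨a, rfl, -⟩ := (EE_succ _ 0 _).1 hs
      obtain ⟨a', rfl, -⟩ := (EE_succ _ 0 _).1 hs'
      obtain ⟨a'', rfl, -⟩ := (EE_succ _ 0 _).1 hs''
      obtain ⟨c, h1, h2⟩ := (EE_zero _ _).1 hxy
      obtain ⟨c', h1', h2'⟩ := (EE_zero _ _).1 hyz
      have e1 : a = c := eq_of_heq (Sigma.mk.inj_iff.1 h1).2
      have e2 : a' = c' := eq_of_heq (Sigma.mk.inj_iff.1 h1').2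
      refine (EE_zero _ _).2 ⟨a, rfl, ?_⟩
      subst e1
      subst e2
      exact lt_trans h2 h2'
    · rintro (_ | ⟨_ | n, x⟩)
      · refine ⟨some ⟨2, (Set.univ : Set (Set ℕ))⟩, fun y => ⟨some ⟨1, (∅ : Set ℕ)⟩,
          (EE_succ _ 1 _).2 ⟨(∅ : Set ℕ), rfl, trivial⟩, fun z => ?_⟩⟩
        rw [E1_right]
        constructor
        · rintro ⟨s, rfl, hs⟩
          obtain ⟨a, rfl, ha⟩ := (EE_succ _ 0 _).1 hs
          exact absurd ha (Set.notMem_empty _)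
        · rintro ⟨h, -⟩
          exact absurd h (E1_none z)
      · refine ⟨some ⟨2, (Set.univ : Set (Set ℕ))⟩, fun y => ⟨some ⟨1, ({a : ℕ | a < (x : ℕ) ∧
          E1 (some ⟨0, a⟩) y} : Set ℕ)⟩, (EE_succ _ 1 _).2 ⟨_, rfl, trivial⟩, fun z => ?_⟩⟩
        rw [E1_right, E1_right]
        constructor
        · rintro ⟨s, rfl, hs⟩
          obtain ⟨a, rfl, ha⟩ := (EE_succ _ 0 _).1 hs
          exact ⟨⟨_, rfl, (EE_zero _ _).2 ⟨a, rfl, ha.1⟩⟩, ha.2⟩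
        · rintro ⟨⟨s, rfl, hs⟩, hS⟩
          obtain ⟨a, rfl, ha⟩ := (EE_zero _ _).1 hs
          exact ⟨_, rfl, (EE_succ _ 0 _).2 ⟨a, rfl, ha, hS⟩⟩
      · refine ⟨some ⟨n + 2, (Set.univ : Set (Set (T n)))⟩, fun y => ⟨some ⟨n + 1,
          ({a : T n | @Membership.mem (T n) (Set (T n)) _ x a ∧ E1 (some ⟨n, a⟩) y} : Set (T n))⟩,
          (EE_succ _ (n + 1) _).2 ⟨_, rfl, trivial⟩, fun z => ?_⟩⟩
        rw [E1_right, E1_right]
        constructor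
        · rintro ⟨s, rfl, hs⟩
          obtain ⟨a, rfl, ha⟩ := (EE_succ _ n _).1 hs
          exact ⟨⟨_, rfl, (EE_succ _ _ _).2 ⟨a, rfl, ha.1⟩⟩, ha.2⟩
        · rintro ⟨⟨s, rfl, hs⟩, hS⟩
          obtain ⟨a, rfl, ha⟩ := (EE_succ _ _ _).1 hs
          exact ⟨_, rfl, (EE_succ _ _ _).2 ⟨a, rfl, ha, hS⟩⟩

theorem mk_T (n : ℕ) : #(T n) = ℶ_ n := by
  induction n with
  | zero =>
    change #ℕ = _
    simp
  | succ n ih =>
    change #(Set (T n)) = _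
    rw [Cardinal.mk_set, ih, Nat.cast_add, Nat.cast_one, beth_add_one]

theorem mk_model1 : #(Option (Σ n, T n)) ≤ ℶ_ ω := by
  have h0 : ℵ₀ ≤ ℶ_ ω := aleph0_le_beth _
  have h1 : #(Σ n, T n) ≤ ℶ_ ω := by
    rw [Cardinal.mk_sigma]
    refine (Cardinal.sum_le_mk_mul_iSup _).trans ?_
    have h2 : (⨆ n, #(T n)) ≤ ℶ_ ω := by
      refine ciSup_le' fun n => ?_
      rw [mk_T]
      exact beth_le_beth.2 (Ordinal.nat_lt_omega0 n).le
    rw [Cardinal.mk_nat]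
    exact (mul_le_mul' h0 h2).trans (Cardinal.mul_eq_self h0).le
  rw [Cardinal.mk_option]
  exact Cardinal.add_le_of_le h0 h1 (one_lt_aleph0.le.trans h0)

end Pool.Agent.Y558.IQ
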