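import Pool.Agent.Results.MP_130315_lc.UncountableDomain

set_option autoImplicit false

/-!
Formulas of InqBQ which are refuted exactly by the structures with full separation that satisfy a
given first-order formula. The coding of sets of individuals by substates is that of the starting
file `MP_130315_lc/UncountableDomain`; here every individual except the parameter is a name.
-/

namespace Pool.Agent.Y558.IQ

open Pool.Agent.Results.MP_130315_lc.UncountableDomain Cardinal

universe a b u v

/-- First-order formulas about one binary relation and identity. -/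
inductive FO : Type
  | eq : ℕ → ℕ → FO
  | mem : ℕ → ℕ → FO
  | bot : FO
  | and : FO → FO → FO
  | imp : FO → FO → FO
  | all : ℕ → FO → FO
  | ex : ℕ → FO → FO

/-- Satisfaction of first-order formulas. -/
def Holds {A : Type v} (E : A → A → Prop) : FO → (ℕ → A) → Prop
  | .eq i j, g => g i = g j
  | .mem i j, g => E (g i) (g j)
  | .bot, _ => False
  | .and φ ψ, g => Holds E φ g ∧ Holds E ψ g
  | .imp φ ψ, g => Holds E φ g → Holds E ψ g
  | .all i φ, g => ∀ x : A, Holds E φ (Function.update g i x)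
  | .ex i φ, g => ∃ x : A, Holds E φ (Function.update g i x)

/-- Full separation: every set of elements of an element `p` is coded by an element. -/
def Full {A : Type v} (q : A) (E : A → A → Prop) : Prop :=
  ∀ (p : A) (S : Set A), ∃ y, ∀ z, z ≠ q → (E z y ↔ E z p ∧ z ∈ S)

variable {σ : Sig.{a, b}}

/-- `x_i` and `x_j` differ and `R(x_i, x_j)` -/
def me (R : σ.Pred) (i j : ℕ) : Fml σ := .and (neg (ee i j)) (rr R i j)

/-- translation of first-order formulas -/
def tr (R : σ.Pred) : FO → Fml σ
  | .eq i j => ee i j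
  | .mem i j => me R i j
  | .bot => .bot
  | .and φ ψ => .and (tr R φ) (tr R ψ)
  | .imp φ ψ => .imp (tr R φ) (tr R ψ)
  | .all i φ => .all i (tr R φ)
  | .ex i φ => .iex i (tr R φ)

/-- `x_i` is a name -/
def na (i : ℕ) : Fml σ := neg (ee i 0)

/-- the state decides the bit on the worlds marked by any given name -/
def al (R : σ.Pred) : Fml σ :=
  .all 2 (.imp (na 2) (.imp (rr R 2 2) (whether (rr R 0 0))))

/-- some individual codes the set of elements of `x_3` with bit one -/
def be (R : σ.Pred) : Fml σ :=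
  .iex 1 (.all 2 (.imp (na 2) (.imp (rr R 2 2)
    (.and (.imp (me R 2 1) (.and (me R 2 3) (rr R 0 0)))
      (.imp (.and (me R 2 3) (rr R 0 0)) (me R 2 1))))))

/-- the premise -/
def th (R : σ.Pred) (ψ : FO) : Fml σ :=
  .and (.all 1 (.all 2 (whether (ee 1 2))))
  (.and (.all 1 (.all 2 (.imp (neg (ee 1 2)) (whether (rr R 1 2)))))
  (.and (.all 1 (.all 2 (.imp (.and (.and (na 1) (na 2)) (.and (rr R 1 1) (rr R 2 2)))
    (ee 1 2))))
  (.and (.all 3 (.imp (al R) (be R))) (tr R ψ))))

/-- the conclusion -/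
def ch (R : σ.Pred) : Fml σ :=
  .ior (.iex 1 (.and (na 1) (.imp (rr R 1 1) (rr R 0 0))))
    (.iex 1 (.and (na 1) (.imp (rr R 1 1) (neg (rr R 0 0)))))

/-- the formula of InqBQ -/
def fm (R : σ.Pred) (ψ : FO) : Fml σ := .imp (th R ψ) (ch R)

variable (M : Model.{a, b, u, v} σ)

theorem sup_neg_ee (s : Set M.W) (g : ℕ → M.D) (i j : ℕ) :
    Supports M s g (neg (ee i j)) ↔ ∀ w ∈ s, ¬ M.sim w (g i) (g j) := by
  rw [supports_neg]
  refine forall₂_congr fun w _ => ?_
  rw [supports_ee]
  simp

theorem sup_na (s : Set M.W) (g : ℕ → M.D) (i : ℕ) :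
    Supports M s g (na i) ↔ ∀ w ∈ s, ¬ M.sim w (g i) (g 0) := sup_neg_ee M s g i 0

theorem sup_me (R : σ.Pred) (s : Set M.W) (g : ℕ → M.D) (i j : ℕ) :
    Supports M s g (me R i j) ↔ ∀ w ∈ s, ¬ M.sim w (g i) (g j) ∧ RR M R w (g i) (g j) := by
  constructor
  · rintro ⟨h1, h2⟩ w hw
    exact ⟨(sup_neg_ee M s g i j).1 h1 w hw, (supports_rr M R s g i j).1 h2 w hw⟩
  · intro h
    exact ⟨(sup_neg_ee M s g i j).2 fun w hw => (h w hw).1,
      (supports_rr M R s g i j).2 fun w hw => (h w hw).2⟩

/-- the translation is correct in states with rigid identity and rigid relation -/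
theorem truth (R : σ.Pred) (t : Set M.W) {A : Type v} (E : A → A → Prop) (mk : M.D → A)
    (hmk : Function.Surjective mk) (hE : ∀ x, ¬ E x x)
    (h1 : ∀ w ∈ t, ∀ x y, M.sim w x y ↔ mk x = mk y)
    (h2 : ∀ w ∈ t, ∀ x y, mk x ≠ mk y → (RR M R w x y ↔ E (mk x) (mk y))) (ψ : FO) :
    ∀ (g : ℕ → M.D) (s : Set M.W), s ⊆ t →
      (Supports M s g (tr R ψ) ↔ (s.Nonempty → Holds E ψ (mk ∘ g))) := by
  induction ψ with
  | eq i j =>
    intro g s hs
    change Supports M s g (ee i j) ↔ _
    rw [supports_ee]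
    constructor
    · rintro h ⟨w, hw⟩
      exact (h1 w (hs hw) _ _).1 (h w hw)
    · intro h w hw
      exact (h1 w (hs hw) _ _).2 (h ⟨w, hw⟩)
  | mem i j =>
    intro g s hs
    change Supports M s g (me R i j) ↔ _
    rw [sup_me]
    constructor
    · rintro h ⟨w, hw⟩
      have hne : mk (g i) ≠ mk (g j) := fun he => (h w hw).1 ((h1 w (hs hw) _ _).2 he)
      exact (h2 w (hs hw) _ _ hne).1 (h w hw).2
    · intro h w hw
      have hm : E (mk (g i)) (mk (g j)) := h ⟨w, hw⟩
      have hne : mk (g i) ≠ mk (g j) := by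
        intro he
        rw [he] at hm
        exact hE _ hm
      exact ⟨fun hs' => hne ((h1 w (hs hw) _ _).1 hs'), (h2 w (hs hw) _ _ hne).2 hm⟩
  | bot =>
    intro g s hs
    change s = ∅ ↔ (s.Nonempty → False)
    rw [← Set.not_nonempty_iff_eq_empty]
  | and φ ψ ih1 ih2 =>
    intro g s hs
    change (Supports M s g (tr R φ) ∧ Supports M s g (tr R ψ)) ↔
      (s.Nonempty → Holds E φ (mk ∘ g) ∧ Holds E ψ (mk ∘ g))
    rw [ih1 g s hs, ih2 g s hs]
    constructor
    · rintro ⟨k1, k2⟩ hn
      exact ⟨k1 hn, k2 hn⟩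
    · intro h
      exact ⟨fun hn => (h hn).1, fun hn => (h hn).2⟩
  | imp φ ψ ih1 ih2 =>
    intro g s hs
    change (∀ r : Set M.W, r ⊆ s → Supports M r g (tr R φ) → Supports M r g (tr R ψ)) ↔
      (s.Nonempty → Holds E φ (mk ∘ g) → Holds E ψ (mk ∘ g))
    constructor
    · intro h hn hφ
      exact (ih2 g s hs).1 (h s (Set.Subset.refl _) ((ih1 g s hs).2 fun _ => hφ)) hn
    · intro h r hr hφ
      refine (ih2 g r (hr.trans hs)).2 fun hn => ?_
      exact h (hn.mono hr) ((ih1 g r (hr.trans hs)).1 hφ hn)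
  | all i φ ih =>
    intro g s hs
    change (∀ d : M.D, Supports M s (Function.update g i d) (tr R φ)) ↔
      (s.Nonempty → ∀ x : A, Holds E φ (Function.update (mk ∘ g) i x))
    constructor
    · intro h hn x
      obtain ⟨d, rfl⟩ := hmk x
      have := (ih _ s hs).1 (h d) hn
      rwa [Function.comp_update] at this
    · intro h d
      refine (ih _ s hs).2 fun hn => ?_
      rw [Function.comp_update]
      exact h hn (mk d)
  | ex i φ ih =>
    intro g s hs
    change (∃ d : M.D, Supports M s (Function.update g i d) (tr R φ)) ↔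
      (s.Nonempty → ∃ x : A, Holds E φ (Function.update (mk ∘ g) i x))
    constructor
    · rintro ⟨d, hd⟩ hn
      refine ⟨mk d, ?_⟩
      have := (ih _ s hs).1 hd hn
      rwa [Function.comp_update] at this
    · intro h
      by_cases hn : s.Nonempty
      · obtain ⟨x, hx⟩ := h hn
        obtain ⟨d, rfl⟩ := hmk x
        refine ⟨d, (ih _ s hs).2 fun _ => ?_⟩
        rw [Function.comp_update]
        exact hx
      · obtain ⟨d⟩ := M.nonemptyD
        exact ⟨d, (ih _ s hs).2 fun hn' => absurd hn' hn⟩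

end Pool.Agent.Y558.IQ
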