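import Pool.Agent.Y558.IQ.Gen

set_option autoImplicit false
set_option linter.deprecated false

/-! A first-order formula whose structures with full separation have at least as many elements as
an inaccessible cardinal. -/

namespace Pool.Agent.Y558.IQ

open Cardinal Ordinal

universe v

/-- bounded quantifiers -/
def FO.ba (i j : ℕ) (φ : FO) : FO := .all i (.imp (.mem i j) φ)

/-- bounded quantifiers -/
def FO.be (i j : ℕ) (φ : FO) : FO := .ex i (.and (.mem i j) φ)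

/-- the pair object of `x_5` and `x_6` is in `x_4` -/
def prf : FO := .be 7 2 (.and (.mem 7 4) (.and (.mem 5 7) (.mem 7 6)))

/-- `x_1` is a model of set theory with second-order replacement, with pair objects in `x_2` -/
def psi2 : FO :=
  .and (.all 1 (.all 2 (.imp (.mem 1 2) (.imp (.eq 1 0) .bot))))
  (.ex 1 (.ex 2 (.and
    (.ba 3 1 (.ba 4 1 (.be 5 2 (.and (.mem 3 5) (.and (.mem 5 4)
      (.and (.ba 6 1 (.imp (.mem 6 5) (.eq 6 3))) (.ba 6 1 (.imp (.mem 5 6) (.eq 6 4)))))))))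
  (.and
    (.be 3 1 (.and (.be 4 1 (.mem 4 3)) (.and
      (.ba 4 1 (.imp (.mem 4 3) (.be 5 1 (.and (.mem 5 3) (.mem 4 5)))))
      (.ba 4 1 (.ba 5 1 (.ba 6 1 (.imp (.and (.mem 4 5) (.mem 5 6))
        (.imp (.and (.mem 4 3) (.and (.mem 5 3) (.mem 6 3))) (.mem 4 6)))))))))
  (.and
    (.ba 3 1 (.be 4 1 (.all 5 (.be 6 1 (.and (.mem 6 4) (.ba 7 1 (.and
      (.imp (.mem 7 6) (.and (.mem 7 3) (.mem 7 5)))
      (.imp (.and (.mem 7 3) (.mem 7 5)) (.mem 7 6)))))))))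
    (.ba 3 1 (.all 4 (.imp (.ba 5 1 (.imp (.mem 5 3) (.be 6 1 prf)))
      (.be 8 1 (.ba 5 1 (.imp (.mem 5 3) (.be 6 1 (.and prf
        (.ba 9 1 (.imp (.mem 9 6) (.mem 9 8)))))))))))))))) 

variable {A : Type v}

/-- the meaning of `psi2` -/
def Sem2 (E : A → A → Prop) (q : A) : Prop :=
  (∀ x p, E x p → x ≠ q) ∧ ∃ β γ,
    (∀ a, E a β → ∀ b, E b β → ∃ π, E π γ ∧ E a π ∧ E π b ∧ (∀ a', E a' β → E a' π → a' = a) ∧
      (∀ b', E b' β → E π b' → b' = b)) ∧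
    (∃ c, E c β ∧ (∃ z, E z β ∧ E z c) ∧ (∀ z, E z β → E z c → ∃ y, E y β ∧ E y c ∧ E z y) ∧
      ∀ x, E x β → ∀ y, E y β → ∀ z, E z β → E x y → E y z → E x c → E y c → E z c → E x z) ∧
    (∀ p, E p β → ∃ P, E P β ∧ ∀ y, ∃ y', E y' β ∧ E y' P ∧
      ∀ z, E z β → (E z y' ↔ E z p ∧ E z y)) ∧
    (∀ x, E x β → ∀ F, (∀ a, E a β → E a x → ∃ b, E b β ∧ ∃ π, E π γ ∧ E π F ∧ E a π ∧ E π b) →
      ∃ u, E u β ∧ ∀ a, E a β → E a x → ∃ b, E b β ∧ (∃ π, E π γ ∧ E π F ∧ E a π ∧ E π b) ∧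
        ∀ z, E z β → E z b → E z u)

theorem holds_psi2 (E : A → A → Prop) (g : ℕ → A) : Holds E psi2 g ↔ Sem2 E (g 0) := by
  simp [psi2, prf, FO.ba, FO.be, Holds, Function.update, iff_def, Sem2]

theorem inf_ext' (E : A → A → Prop) (hE : ∀ x, ¬ E x x) (β c : A) (h1 : ∃ z, E z β ∧ E z c)
    (h2 : ∀ z, E z β → E z c → ∃ y, E y β ∧ E y c ∧ E z y)
    (h3 : ∀ x, E x β → ∀ y, E y β → ∀ z, E z β → E x y → E y z → E x c → E y c → E z c →
      E x z) :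
    Infinite {z // E z β ∧ E z c} := by
  by_contra hfin
  rw [not_infinite_iff_finite] at hfin
  let r : {z // E z β ∧ E z c} → {z // E z β ∧ E z c} → Prop := fun x y => E y.1 x.1
  have : Std.Irrefl r := ⟨fun x => hE x.1⟩
  have : IsTrans _ r := ⟨fun x y z hxy hyz => h3 z.1 z.2.1 y.1 y.2.1 x.1 x.2.1 hyz hxy
    z.2.2 y.2.2 x.2.2⟩
  have hwf : WellFounded r := Finite.wellFounded_of_trans_of_irrefl r
  obtain ⟨z, hz⟩ := h1
  obtain ⟨m, -, hm⟩ := hwf.has_min Set.univ ⟨⟨z, hz⟩, trivial⟩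
  obtain ⟨y, hy0, hy, hmy⟩ := h2 m.1 m.2.1 m.2.2
  exact hm ⟨y, hy0, hy⟩ trivial hmy

theorem pow_ext' (E : A → A → Prop) (q : A) (hq : ∀ x p, E x p → x ≠ q) (hF : Full q E)
    (β p P : A)
    (h : ∀ y, ∃ y', E y' β ∧ E y' P ∧ ∀ z, E z β → (E z y' ↔ E z p ∧ E z y)) :
    2 ^ #{z // E z β ∧ E z p} ≤ #{z // E z β ∧ E z P} := by
  have key : ∀ S : Set {z // E z β ∧ E z p}, ∃ y', (E y' β ∧ E y' P) ∧
      ∀ z : {z // E z β ∧ E z p}, (E z.1 y' ↔ z ∈ S) := by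
    intro S
    obtain ⟨y, hy⟩ := hF p (Subtype.val '' S)
    obtain ⟨y', h1, h2, h3⟩ := h y
    refine ⟨y', ⟨h1, h2⟩, ?_⟩
    intro z
    rw [h3 z.1 z.2.1, hy z.1 (hq _ _ z.2.1)]
    constructor
    · rintro ⟨-, -, z', hz', he⟩
      rwa [← Subtype.ext he]
    · intro hz
      exact ⟨z.2.2, z.2.2, z, hz, rfl⟩
  choose f hf1 hf2 using key
  rw [← Cardinal.mk_set]
  refine Cardinal.mk_le_of_injective (f := fun S => (⟨f S, hf1 S⟩ : {z // E z β ∧ E z P})) ?_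
  intro S T hST
  have : f S = f T := congrArg Subtype.val hST
  ext z
  rw [← hf2 S z, ← hf2 T z, this]

/-- the lower bound -/
theorem inac_le (E : A → A → Prop) (hE : ∀ x, ¬ E x x) (q : A) (hF : Full q E)
    (hψ : Sem2 E q) : ∃ κ : Cardinal.{v}, κ.IsInaccessible ∧ κ ≤ #A ∧ κ ≤ #{x : A // x ≠ q} := by
  obtain ⟨hq, β, γ, hP, ⟨c, hc0, hc1, hc2, hc3⟩, hPow, hRep⟩ := hψ
  let ex : {x // E x β} → Cardinal.{v} := fun x => #{z // E z β ∧ E z x.1}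
  let κ : Cardinal.{v} := ⨆ x, Order.succ (ex x)
  have hlt : ∀ x, ex x < κ := fun x =>
    (Order.lt_succ _).trans_le (le_ciSup (bddAbove_range (fun x => Order.succ (ex x))) x)
  have hex : ∀ μ < κ, ∃ x, μ ≤ ex x := by
    intro μ hμ
    have : Nonempty {x // E x β} := ⟨⟨c, hc0⟩⟩
    obtain ⟨x, hx⟩ := exists_lt_of_lt_ciSup hμ
    exact ⟨x, Order.lt_succ_iff.1 hx⟩
  have hpow : ∀ x, ∃ y, 2 ^ ex x ≤ ex y := by
    intro x
    obtain ⟨P, hP1, hP2⟩ := hPow x.1 x.2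
    exact ⟨⟨P, hP1⟩, pow_ext' E q hq hF β x.1 P hP2⟩
  have h0 : ℵ₀ ≤ ex ⟨c, hc0⟩ := by
    have := inf_ext' E hE β c hc1 hc2 hc3
    exact Cardinal.aleph0_le_mk _
  have hle : ∀ B : A → Prop, (∀ x p, E x p → B x) → κ ≤ #{x // B x} := by
    intro B hB
    refine ciSup_le' fun x => Order.succ_le_of_lt ?_
    obtain ⟨y, hy⟩ := hpow x
    refine (Cardinal.cantor _).trans_le (hy.trans ?_)
    refine Cardinal.mk_le_of_injective
      (f := fun z : {z // E z β ∧ E z y.1} => (⟨z.1, hB _ _ z.2.1⟩ : {x // B x})) ?_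
    intro x y h
    have h' := congrArg Subtype.val h
    exact Subtype.ext h'
  have hstr : IsStrongPrelimit κ := by
    intro μ hμ
    obtain ⟨x, hx⟩ := hex μ hμ
    obtain ⟨y, hy⟩ := hpow x
    exact ((Cardinal.power_le_power_left two_ne_zero hx).trans hy).trans_lt (hlt y)
  refine ⟨κ, ⟨h0.trans_lt (hlt _), ?_, hstr⟩, (hle (fun _ => True) fun _ _ _ => trivial).trans
    (Cardinal.mk_subtype_le _), hle (fun x => x ≠ q) hq⟩
  -- regularity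
  by_contra hcof
  rw [not_le] at hcof
  obtain ⟨ι, f, hf, hι⟩ := Ordinal.exists_lsub_cof κ.ord
  rw [← hι] at hcof
  obtain ⟨x, hx⟩ := hex _ hcof
  obtain ⟨j⟩ : Nonempty (ι ↪ {z // E z β ∧ E z x.1}) := hx
  have hfi : ∀ i, ∃ y, (f i).card ≤ ex y := by
    intro i
    refine hex _ ?_
    rw [← Cardinal.lt_ord, ← hf]
    exact Ordinal.lt_lsub f i
  choose y hy using hfi
  -- the function from the members of `x`
  have : ∃ F : {z // E z β ∧ E z x.1} → {z // E z β}, ∀ i, F (j i) = y i := by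
    refine ⟨Function.extend j y (fun _ => ⟨c, hc0⟩), fun i => j.injective.extend_apply _ _ _⟩
  obtain ⟨F, hFj⟩ := this
  choose! π h1 h2 h3 h4 h5 using hP
  obtain ⟨k, hk⟩ := hF γ {p | ∃ a : {z // E z β ∧ E z x.1}, p = π a.1 (F a).1}
  have hpr : ∀ a b, ∀ ha0 : E a β, ∀ ha : E a x.1, E b β →
      ((∃ p, E p γ ∧ E p k ∧ E a p ∧ E p b) ↔ b = (F ⟨a, ha0, ha⟩).1) := by
    intro a b haβ hax hb
    constructor
    · rintro ⟨p, hpγ, hpk, hap, hpb⟩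
      obtain ⟨-, a', rfl⟩ := (hk p (hq _ _ hpγ)).1 hpk
      have e1 : a = a'.1 := h4 _ a'.2.1 _ (F a').2 a haβ hap
      have e2 : b = (F a').1 := h5 _ a'.2.1 _ (F a').2 b hb hpb
      rw [e2]
      have : a' = ⟨a, haβ, hax⟩ := Subtype.ext e1.symm
      rw [this]
    · rintro rfl
      have k1 := h1 a haβ _ (F ⟨a, haβ, hax⟩).2
      refine ⟨π a (F ⟨a, haβ, hax⟩).1, k1, ?_, h2 a haβ _ (F ⟨a, haβ, hax⟩).2,
        h3 a haβ _ (F ⟨a, haβ, hax⟩).2⟩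
      exact (hk _ (hq _ _ k1)).2 ⟨k1, ⟨a, haβ, hax⟩, rfl⟩
  obtain ⟨u, hu, hu2⟩ := hRep x.1 x.2 k (by
    intro a haβ hax
    exact ⟨(F ⟨a, haβ, hax⟩).1, (F ⟨a, haβ, hax⟩).2,
      (hpr a _ haβ hax (F ⟨a, haβ, hax⟩).2).2 rfl⟩)
  have hyu : ∀ i, ex (y i) ≤ ex ⟨u, hu⟩ := by
    intro i
    obtain ⟨b, hb, hb1, hb2⟩ := hu2 (j i).1 (j i).2.1 (j i).2.2
    have hb3 : b = (y i).1 := by
      rw [(hpr (j i).1 b (j i).2.1 (j i).2.2 hb).1 hb1]
      have : F ⟨(j i).1, (j i).2.1, (j i).2.2⟩ = F (j i) := rfl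
      rw [this, hFj]
    rw [hb3] at hb2
    refine Cardinal.mk_le_of_injective
      (f := fun z : {z // E z β ∧ E z (y i).1} =>
        (⟨z.1, z.2.1, hb2 z.1 z.2.1 z.2.2⟩ : {z // E z β ∧ E z u})) ?_
    intro x y h
    have h' := congrArg Subtype.val h
    exact Subtype.ext h'
  have hfin : κ.ord ≤ (Order.succ (ex ⟨u, hu⟩)).ord := by
    rw [← hf]
    refine Ordinal.lsub_le_iff.2 fun i => ?_
    rw [Cardinal.lt_ord]
    exact Order.lt_succ_iff.2 ((hy i).trans (hyu i))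
  rw [Cardinal.ord_le_ord] at hfin
  obtain ⟨y', hy'⟩ := hpow ⟨u, hu⟩
  have : Order.succ (ex ⟨u, hu⟩) ≤ ex y' :=
    (Order.succ_le_of_lt (Cardinal.cantor _)).trans hy'
  exact absurd (hfin.trans this) (not_le.2 (hlt y'))

end Pool.Agent.Y558.IQ
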