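import Mathlib

set_option autoImplicit false

/-! Inaccessible cardinals in different universes, and small facts on cardinals. -/

namespace Pool.Agent.Y558.IQ

open Cardinal

universe u v w

theorem inac_lift (κ : Cardinal.{u}) :
    (Cardinal.lift.{v} κ).IsInaccessible ↔ κ.IsInaccessible := by
  constructor
  · intro h
    refine ⟨?_, ?_, ?_⟩
    · have := h.aleph0_lt
      rw [← lift_aleph0.{v, u}] at this
      exact Cardinal.lift_lt.1 this
    · exact (Cardinal.isRegular_lift_iff.1 h.isRegular).2
    · intro x hx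
      have h1 := h.isStrongPrelimit (Cardinal.lift_lt.{u, v}.2 hx)
      rw [← lift_two_power] at h1
      exact Cardinal.lift_lt.1 h1
  · intro h
    refine ⟨?_, ?_, ?_⟩
    · rw [← lift_aleph0.{v, u}]
      exact Cardinal.lift_lt.2 h.aleph0_lt
    · exact h.isRegular.lift.2
    · intro x hx
      obtain ⟨y, rfl⟩ := Cardinal.mem_range_lift_of_le hx.le
      rw [← lift_two_power]
      exact Cardinal.lift_lt.2 (h.isStrongPrelimit (Cardinal.lift_lt.1 hx))

/-- an inaccessible cardinal below a lifted cardinal -/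
theorem inac_transfer (κ : Cardinal.{v}) (hκ : κ.IsInaccessible) (c : Cardinal.{u})
    (h : Cardinal.lift.{u} κ ≤ Cardinal.lift.{v} c) :
    ∃ κ' : Cardinal.{u}, κ'.IsInaccessible ∧ κ' ≤ c := by
  obtain ⟨κ', hκ'⟩ := Cardinal.mem_range_lift_of_le h
  refine ⟨κ', ?_, ?_⟩
  · rw [← inac_lift.{u, v}, hκ', inac_lift]
    exact hκ
  · rw [← hκ'] at h
    exact Cardinal.lift_le.1 h

theorem compl_inf {A : Type v} (q : A) (hA : ℵ₀ ≤ #A) : #({x : A // x ≠ q} × Bool) = #A := by
  have : Infinite A := Cardinal.infinite_iff.2 hA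
  have h1 : #{x : A // x ≠ q} = #A := by
    have := Cardinal.mk_compl_of_infinite ({q} : Set A) (by
      rw [Cardinal.mk_singleton]
      exact one_lt_aleph0.trans_le hA)
    exact this
  rw [Cardinal.mk_prod, h1, Cardinal.mk_bool]
  simp only [Cardinal.lift_ofNat]
  have : #A * 2 = #A := by
    apply Cardinal.mul_eq_left hA
    · exact (Cardinal.natCast_lt_aleph0 (n := 2)).le.trans hA
    · exact two_ne_zero
  simpa using this

end Pool.Agent.Y558.IQ
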