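import Pool.Agent.Y558.IQ.Gen

set_option autoImplicit false

/-! Refutations of the formula give structures with full separation. -/

namespace Pool.Agent.Y558.IQ

open Pool.Agent.Results.MP_130315_lc.UncountableDomain Cardinal

universe a b u v

variable {σ : Sig.{a, b}} (M : Model.{a, b, u, v} σ)

theorem sim_RR (R : σ.Pred) (w : M.W) {x x' y y' : M.D} (hx : M.sim w x x') (hy : M.sim w y y') :
    RR M R w x y ↔ RR M R w x' y' :=
  M.sim_pred w R _ _ (by
    intro k
    split_ifs
    · exact hx
    · exact hy)

/-- Every refutation of the formula yields a structure with full separation which satisfies the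
first-order formula. -/
theorem low (R : σ.Pred) (ψ : FO) (s : Set M.W) (g : ℕ → M.D) (h : ¬ Supports M s g (fm R ψ)) :
    ∃ (A : Type v) (E : A → A → Prop) (g' : ℕ → A), (∀ x, ¬ E x x) ∧ Full (g' 0) E ∧
      Holds E ψ g' ∧ #A ≤ #M.D ∧ lift.{u} #{x : A // x ≠ g' 0} ≤ lift.{v} #M.W := by
  have h' : ∃ t : Set M.W, t ⊆ s ∧ Supports M t g (th R ψ) ∧ ¬ Supports M t g (ch R) := by
    by_contra hcon
    push Not at hcon
    exact h fun t ht hθ => hcon t ht hθ
  obtain ⟨t, -, ⟨h1, h2, h3, h4, h5⟩, hχ⟩ := h'
  have hne : t.Nonempty := by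
    by_contra hcon
    rw [Set.not_nonempty_iff_eq_empty] at hcon
    apply hχ
    rw [hcon]
    exact supports_empty M _ g
  obtain ⟨w0, hw0⟩ := hne
  -- identity is rigid on the state
  have e1 : ∀ x y : M.D, (∀ w ∈ t, M.sim w x y) ∨ (∀ w ∈ t, ¬ M.sim w x y) := by
    intro x y
    have := (supports_whether M (ee 1 2) t _).1 (h1 x y)
    rcases this with h | h
    · left
      intro w hw
      have := (supports_ee M t _ 1 2).1 h w hw
      simpa [Function.update] using this
    · right
      intro w hw hs
      apply h w hw
      rw [supports_ee]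
      intro w' hw'
      rw [Set.mem_singleton_iff] at hw'
      subst hw'
      simpa [Function.update] using hs
  -- R is rigid on the state, off the diagonal
  have e2 : ∀ x y : M.D, (∀ w ∈ t, ¬ M.sim w x y) →
      (∀ w ∈ t, RR M R w x y) ∨ (∀ w ∈ t, ¬ RR M R w x y) := by
    intro x y hxy
    have hpre : Supports M t (Function.update (Function.update g 1 x) 2 y) (neg (ee 1 2)) := by
      rw [sup_neg_ee]
      intro w hw hs
      apply hxy w hw
      simpa [Function.update] using hs
    have := (supports_whether M (rr R 1 2) t _).1 (h2 x y t (Set.Subset.refl _) hpre)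
    rcases this with h | h
    · left
      intro w hw
      have := (supports_rr M R t _ 1 2).1 h w hw
      simpa [Function.update] using this
    · right
      intro w hw hs
      apply h w hw
      rw [supports_rr]
      intro w' hw'
      rw [Set.mem_singleton_iff] at hw'
      subst hw'
      simpa [Function.update] using hs
  let st : Setoid M.D := ⟨M.sim w0, M.sim_equiv w0⟩
  let mk : M.D → Quotient st := Quotient.mk st
  have hmks : Function.Surjective mk := Quotient.mk_surjective
  have hmk : ∀ w ∈ t, ∀ x y, M.sim w x y ↔ mk x = mk y := by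
    intro w hw x y
    have k : mk x = mk y ↔ M.sim w0 x y := Quotient.eq (r := st)
    rw [k]
    rcases e1 x y with h' | h'
    · exact ⟨fun _ => h' w0 hw0, fun _ => h' w hw⟩
    · exact ⟨fun h => absurd h (h' w hw), fun h => absurd h (h' w0 hw0)⟩
  let E : Quotient st → Quotient st → Prop := fun p r => p ≠ r ∧ RR M R w0 p.out r.out
  have hEirr : ∀ x, ¬ E x x := fun x hx => hx.1 rfl
  have hout : ∀ x : M.D, M.sim w0 (mk x).out x := fun x =>
    (hmk w0 hw0 _ _).2 (Quotient.out_eq (mk x))
  have hmE : ∀ w ∈ t, ∀ x y, mk x ≠ mk y → (RR M R w x y ↔ E (mk x) (mk y)) := by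
    intro w hw x y hxy
    have k1 : RR M R w0 (mk x).out (mk y).out ↔ RR M R w0 x y :=
      sim_RR M R w0 (hout x) (hout y)
    have k2 : RR M R w x y ↔ RR M R w0 x y := by
      rcases e2 x y (fun w hw hs => hxy ((hmk w hw x y).1 hs)) with h' | h'
      · exact ⟨fun _ => h' w0 hw0, fun _ => h' w hw⟩
      · exact ⟨fun h => absurd h (h' w hw), fun h => absurd h (h' w0 hw0)⟩
    rw [k2, ← k1]
    exact ⟨fun h => ⟨hxy, h⟩, fun h => h.2⟩
  have tru := truth M R t E mk hmks hEirr hmk hmE
  -- at most one name is marked at a world
  have e6 : ∀ w ∈ t, ∀ x y : M.D, mk x ≠ mk (g 0) → mk y ≠ mk (g 0) → RR M R w x x →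
      RR M R w y y → mk x = mk y := by
    intro w hw x y hx hy hxx hyy
    have h := h3 x y {w} (Set.singleton_subset_iff.mpr hw)
    have hpre : Supports M {w} (Function.update (Function.update g 1 x) 2 y)
        (.and (.and (na 1) (na 2)) (.and (rr R 1 1) (rr R 2 2))) := by
      refine ⟨⟨?_, ?_⟩, ?_, ?_⟩
      · rw [sup_na]
        intro w' hw' hs
        rw [Set.mem_singleton_iff] at hw'
        subst hw'
        exact hx ((hmk w' hw _ _).1 (by simpa [Function.update] using hs))
      · rw [sup_na]
        intro w' hw' hs
        rw [Set.mem_singleton_iff] at hw'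
        subst hw'
        exact hy ((hmk w' hw _ _).1 (by simpa [Function.update] using hs))
      · rw [supports_rr]
        intro w' hw'
        rw [Set.mem_singleton_iff] at hw'
        subst hw'
        simpa [Function.update] using hxx
      · rw [supports_rr]
        intro w' hw'
        rw [Set.mem_singleton_iff] at hw'
        subst hw'
        simpa [Function.update] using hyy
    have := (supports_ee M {w} _ 1 2).1 (h hpre) w rfl
    exact (hmk w hw _ _).1 (by simpa [Function.update] using this)
  -- every name is marked at worlds of both kinds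
  have e8 : ∀ x : M.D, mk x ≠ mk (g 0) →
      (∃ w ∈ t, RR M R w x x ∧ RR M R w (g 0) (g 0)) ∧
        (∃ w ∈ t, RR M R w x x ∧ ¬ RR M R w (g 0) (g 0)) := by
    intro x hx
    have hpre : Supports M t (Function.update g 1 x) (na 1) := by
      rw [sup_na]
      intro w hw hs
      exact hx ((hmk w hw _ _).1 (by simpa [Function.update] using hs))
    constructor
    · by_contra hcon
      push Not at hcon
      apply hχ
      right
      refine ⟨x, hpre, ?_⟩
      intro u hu hR
      rw [supports_neg]
      intro w hw hQ
      rw [supports_rr] at hR hQ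
      refine hcon w (hu hw) ?_ ?_
      · simpa [Function.update] using hR w hw
      · simpa [Function.update] using hQ w rfl
    · by_contra hcon
      push Not at hcon
      apply hχ
      left
      refine ⟨x, hpre, ?_⟩
      intro u hu hR
      rw [supports_rr]
      intro w hw
      rw [supports_rr] at hR
      have := hcon w (hu hw) (by simpa [Function.update] using hR w hw)
      simpa [Function.update] using this
  -- a name marked at a world of which `x` is also marked is equal to `x`
  refine ⟨Quotient st, E, mk ∘ g, hEirr, ?_, ?_, mk_quotient_le, ?_⟩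
  · intro p S
    obtain ⟨p0, rfl⟩ := hmks p
    let r : Set M.W := {w | w ∈ t ∧ ∃ x : M.D, mk x ≠ mk (g 0) ∧ RR M R w x x ∧
      (RR M R w (g 0) (g 0) ↔ mk x ∈ S)}
    have hrt : r ⊆ t := fun w hw => hw.1
    have hα : Supports M r (Function.update g 3 p0) (al R) := by
      intro d v hv hnm v' hv' hR
      rw [sup_na] at hnm
      rw [supports_rr] at hR
      have hnm' : ∀ w ∈ v', mk d ≠ mk (g 0) := by
        intro w hw he
        apply hnm w (hv' hw)
        have := (hmk w (hrt (hv (hv' hw))) d (g 0)).2 he
        simpa [Function.update] using this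
      have hR' : ∀ w ∈ v', RR M R w d d := by
        intro w hw
        simpa [Function.update] using hR w hw
      rw [supports_whether]
      by_cases hex : ∃ w ∈ v', RR M R w (g 0) (g 0)
      · left
        rw [supports_rr]
        intro w' hw'
        obtain ⟨w, hw, hQ⟩ := hex
        obtain ⟨hwt, x, hxn, hx, hxS⟩ := hv (hv' hw)
        obtain ⟨hwt', x', hxn', hx', hxS'⟩ := hv (hv' hw')
        have s1 : mk d = mk x := e6 w hwt d x (hnm' w hw) hxn (hR' w hw) hx
        have s2 : mk d = mk x' := e6 w' hwt' d x' (hnm' w' hw') hxn' (hR' w' hw') hx'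
        have : RR M R w' (g 0) (g 0) := by
          rw [hxS', ← s2, s1, ← hxS]
          exact hQ
        simpa [Function.update] using this
      · right
        intro w hw hQ
        rw [supports_rr] at hQ
        apply hex
        exact ⟨w, hw, by simpa [Function.update] using hQ w rfl⟩
    obtain ⟨y, hy⟩ := h4 p0 r hrt hα
    refine ⟨mk y, ?_⟩
    intro z hz
    obtain ⟨z0, rfl⟩ := hmks z
    change mk z0 ≠ mk (g 0) at hz
    -- a world in r marking z0
    have hwi : ∃ w ∈ r, RR M R w z0 z0 := by
      obtain ⟨⟨w1, hw1, hr1, hq1⟩, ⟨w2, hw2, hr2, hq2⟩⟩ := e8 z0 hz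
      by_cases hzS : mk z0 ∈ S
      · exact ⟨w1, ⟨hw1, z0, hz, hr1, by simp [hzS, hq1]⟩, hr1⟩
      · exact ⟨w2, ⟨hw2, z0, hz, hr2, by simp [hzS, hq2]⟩, hr2⟩
    obtain ⟨w, hwu, hwR⟩ := hwi
    have hwt : w ∈ t := hrt hwu
    have hbit : RR M R w (g 0) (g 0) ↔ mk z0 ∈ S := by
      obtain ⟨_, x, hxn, hx, hxS⟩ := hwu
      have : mk z0 = mk x := e6 w hwt z0 x hz hxn hwR hx
      rw [this]
      exact hxS
    have hmem : ∀ d d' : M.D, (¬ M.sim w d d' ∧ RR M R w d d') ↔ E (mk d) (mk d') := by
      intro d d'
      rw [hmk w hwt]
      constructor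
      · rintro ⟨k1, k2⟩
        exact (hmE w hwt d d' k1).1 k2
      · intro k
        exact ⟨k.1, (hmE w hwt d d' k.1).2 k⟩
    have hsub : ({w} : Set M.W) ⊆ r := Set.singleton_subset_iff.mpr hwu
    have hpre1 : Supports M {w}
        (Function.update (Function.update (Function.update g 3 p0) 1 y) 2 z0) (na 2) := by
      rw [sup_na]
      intro w' hw' hs
      rw [Set.mem_singleton_iff] at hw'
      subst hw'
      exact hz ((hmk w' hwt _ _).1 (by simpa [Function.update] using hs))
    have hpre2 : Supports M {w}
        (Function.update (Function.update (Function.update g 3 p0) 1 y) 2 z0) (rr R 2 2) := by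
      rw [supports_rr]
      intro w' hw'
      rw [Set.mem_singleton_iff] at hw'
      subst hw'
      simpa [Function.update] using hwR
    obtain ⟨k1, k2⟩ := hy z0 {w} hsub hpre1 {w} (Set.Subset.refl _) hpre2
    rw [← hbit]
    constructor
    · intro hE
      have := k1 {w} (Set.Subset.refl _) (by
        rw [sup_me]
        intro w' hw'
        rw [Set.mem_singleton_iff] at hw'
        subst hw'
        have := (hmem z0 y).2 hE
        simpa [Function.update] using this)
      obtain ⟨l1, l2⟩ := this
      rw [sup_me] at l1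
      rw [supports_rr] at l2
      exact ⟨(hmem z0 p0).1 (by simpa [Function.update] using l1 w rfl),
        by simpa [Function.update] using l2 w rfl⟩
    · rintro ⟨hE, hb⟩
      have := k2 {w} (Set.Subset.refl _) (by
        refine ⟨?_, ?_⟩
        · rw [sup_me]
          intro w' hw'
          rw [Set.mem_singleton_iff] at hw'
          subst hw'
          have := (hmem z0 p0).2 hE
          simpa [Function.update] using this
        · rw [supports_rr]
          intro w' hw'
          rw [Set.mem_singleton_iff] at hw'
          subst hw'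
          simpa [Function.update] using hb)
      rw [sup_me] at this
      exact (hmem z0 y).1 (by simpa [Function.update] using this w rfl)
  · exact (tru ψ g t (Set.Subset.refl _)).1 h5 ⟨w0, hw0⟩
  · have key : ∀ x : {x : Quotient st // x ≠ (mk ∘ g) 0}, ∃ w ∈ t, RR M R w x.1.out x.1.out := by
      intro x
      have hx : mk x.1.out ≠ mk (g 0) := by
        intro he
        exact x.2 ((Quotient.out_eq x.1).symm.trans he)
      obtain ⟨⟨w, hw, h1, _⟩, _⟩ := e8 _ hx
      exact ⟨w, hw, h1⟩
    choose f hf1 hf2 using key
    refine Cardinal.lift_mk_le'.2 ⟨⟨f, ?_⟩⟩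
    intro x y hxy
    have hx : mk x.1.out ≠ mk (g 0) := fun he => x.2 ((Quotient.out_eq x.1).symm.trans he)
    have hy : mk y.1.out ≠ mk (g 0) := fun he => y.2 ((Quotient.out_eq y.1).symm.trans he)
    have h1 := hf2 y
    rw [← hxy] at h1
    have := e6 (f x) (hf1 x) x.1.out y.1.out hx hy (hf2 x) h1
    exact Subtype.ext ((Quotient.out_eq x.1).symm.trans (this.trans (Quotient.out_eq y.1)))

end Pool.Agent.Y558.IQ
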