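import Pool.Agent.Y558.IQ.Inac

set_option autoImplicit false

/-! Second-order logic inside first-order logic with full separation. -/

namespace Pool.Agent.Y558.IQ

open Cardinal

universe v w

/-- Formulas of second-order logic with unary and binary relation variables. -/
inductive SO : Type
  | eq : ℕ → ℕ → SO
  | un : ℕ → ℕ → SO
  | bi : ℕ → ℕ → ℕ → SO
  | bot : SO
  | imp : SO → SO → SO
  | all : ℕ → SO → SO
  | allU : ℕ → SO → SO
  | allB : ℕ → SO → SO

/-- The free individual variables. -/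
def SO.FV : SO → Set ℕ
  | .eq i j => {i, j}
  | .un _ i => {i}
  | .bi _ i j => {i, j}
  | .bot => ∅
  | .imp φ ψ => φ.FV ∪ ψ.FV
  | .all i φ => φ.FV \ {i}
  | .allU _ φ => φ.FV
  | .allB _ φ => φ.FV

/-- Truth of a second-order formula in the set `B` (full semantics). -/
def SO.Eval {B : Type v} : SO → (ℕ → B) → (ℕ → Set B) → (ℕ → B → B → Prop) → Prop
  | .eq i j, s, _, _ => s i = s j
  | .un X i, s, U, _ => s i ∈ U X
  | .bi Y i j, s, _, R => R Y (s i) (s j)
  | .bot, _, _, _ => False
  | .imp φ ψ, s, U, R => φ.Eval s U R → ψ.Eval s U R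
  | .all i φ, s, U, R => ∀ x : B, φ.Eval (Function.update s i x) U R
  | .allU X φ, s, U, R => ∀ S : Set B, φ.Eval s (Function.update U X S) R
  | .allB Y φ, s, U, R => ∀ r : B → B → Prop, φ.Eval s U (Function.update R Y r)

/-- codes of the variables -/
def vi (i : ℕ) : ℕ := 3 * i + 4
/-- codes of the variables -/
def vu (i : ℕ) : ℕ := 3 * i + 5
/-- codes of the variables -/
def vb (i : ℕ) : ℕ := 3 * i + 6

/-- the translation -/
def so : SO → FO
  | .eq i j => .eq (vi i) (vi j)
  | .un X i => .mem (vi i) (vu X)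
  | .bi Y i j => .ex 3 (.and (.mem 3 2) (.and (.mem 3 (vb Y)) (.and (.mem (vi i) 3) (.mem 3 (vi j)))))
  | .bot => .bot
  | .imp φ ψ => .imp (so φ) (so ψ)
  | .all i φ => .all (vi i) (.imp (.mem (vi i) 1) (so φ))
  | .allU X φ => .all (vu X) (so φ)
  | .allB Y φ => .all (vb Y) (so φ)

variable {A : Type v}

theorem so_truth {B : Type w} (E : A → A → Prop) (q β γ : A) (hq : ∀ x p, E x p → x ≠ q)
    (hF : Full q E) (em : B → A) (hem : Function.Injective em) (hβ : ∀ x, E x β ↔ ∃ b, em b = x)
    (hP : ∀ a, E a β → ∀ b, E b β → ∃ π, E π γ ∧ E a π ∧ E π b ∧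
      (∀ a', E a' β → E a' π → a' = a) ∧ (∀ b', E b' β → E π b' → b' = b)) (Θ : SO) :
    ∀ (g : ℕ → A) (s : ℕ → B) (U : ℕ → Set B)
      (R : ℕ → B → B → Prop), g 1 = β → g 2 = γ →
      (∀ i ∈ Θ.FV, g (vi i) = em (s i)) → (∀ X x, x ∈ U X ↔ E (em x) (g (vu X))) →
      (∀ Y x y, R Y x y ↔ ∃ π, E π γ ∧ E π (g (vb Y)) ∧ E (em x) π ∧ E π (em y)) →
      (Holds E (so Θ) g ↔ Θ.Eval s U R) := by
  have hmem : ∀ b : B, E (em b) β := fun b => (hβ _).2 ⟨b, rfl⟩
  induction Θ with
  | eq i j =>
    intro g s U R _ _ hs _ _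
    change g (vi i) = g (vi j) ↔ s i = s j
    rw [hs i (by simp [SO.FV]), hs j (by simp [SO.FV]), hem.eq_iff]
  | un X i =>
    intro g s U R _ _ hs hU _
    change E (g (vi i)) (g (vu X)) ↔ s i ∈ U X
    rw [hs i (by simp [SO.FV]), hU]
  | bi Y i j =>
    intro g s U R _ h2 hs _ hR
    change (∃ x, Holds E _ (Function.update g 3 x)) ↔ R Y (s i) (s j)
    rw [hR]
    refine exists_congr fun x => ?_
    have e1 : Function.update g 3 x 2 = γ := by simp [Function.update, h2]
    have e2 : Function.update g 3 x (vb Y) = g (vb Y) := by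
      rw [Function.update_of_ne]; unfold vb; omega
    have e3 : Function.update g 3 x (vi i) = em (s i) := by
      rw [Function.update_of_ne, hs i (by simp [SO.FV])]; unfold vi; omega
    have e4 : Function.update g 3 x (vi j) = em (s j) := by
      rw [Function.update_of_ne, hs j (by simp [SO.FV])]; unfold vi; omega
    have e5 : Function.update g 3 x 3 = x := Function.update_self _ _ _
    change (E (Function.update g 3 x 3) (Function.update g 3 x 2) ∧
      E (Function.update g 3 x 3) (Function.update g 3 x (vb Y)) ∧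
      E (Function.update g 3 x (vi i)) (Function.update g 3 x 3) ∧
      E (Function.update g 3 x 3) (Function.update g 3 x (vi j))) ↔ _
    rw [e1, e2, e3, e4, e5]
  | bot => intros; exact Iff.rfl
  | imp φ ψ ih1 ih2 =>
    intro g s U R h1 h2 hs hU hR
    change (Holds E (so φ) g → Holds E (so ψ) g) ↔ (φ.Eval s U R → ψ.Eval s U R)
    rw [ih1 g s U R h1 h2 (fun i hi => hs i (Or.inl hi)) hU hR,
      ih2 g s U R h1 h2 (fun i hi => hs i (Or.inr hi)) hU hR]
  | all i φ ih =>
    intro g s U R h1 h2 hs hU hR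
    change (∀ x, E (Function.update g (vi i) x (vi i)) (Function.update g (vi i) x 1) →
      Holds E (so φ) (Function.update g (vi i) x)) ↔ ∀ x, φ.Eval (Function.update s i x) U R
    have key : ∀ x : B, Holds E (so φ) (Function.update g (vi i) (em x)) ↔
        φ.Eval (Function.update s i x) U R := by
      intro x
      refine ih _ _ _ _ ?_ ?_ ?_ ?_ ?_
      · rw [Function.update_of_ne, h1]; unfold vi; omega
      · rw [Function.update_of_ne, h2]; unfold vi; omega
      · intro j hj
        by_cases hji : j = i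
        · subst hji
          simp
        · rw [Function.update_of_ne (by unfold vi; omega), Function.update_of_ne hji]
          exact hs j ⟨hj, hji⟩
      · intro X y
        rw [Function.update_of_ne (by unfold vi vu; omega)]
        exact hU X y
      · intro Y y z
        rw [Function.update_of_ne (by unfold vi vb; omega)]
        exact hR Y y z
    have e1 : ∀ x, Function.update g (vi i) x 1 = β := by
      intro x
      rw [Function.update_of_ne, h1]; unfold vi; omega
    constructor
    · intro h x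
      refine (key x).1 (h (em x) ?_)
      rw [e1, Function.update_self]
      exact hmem x
    · intro h x hx
      rw [e1, Function.update_self, hβ] at hx
      obtain ⟨b, rfl⟩ := hx
      exact (key b).2 (h b)
  | allU X φ ih =>
    intro g s U R h1 h2 hs hU hR
    change (∀ x, Holds E (so φ) (Function.update g (vu X) x)) ↔
      ∀ S, φ.Eval s (Function.update U X S) R
    have key : ∀ (y : A) (S : Set B), (∀ x : B, x ∈ S ↔ E (em x) y) →
        (Holds E (so φ) (Function.update g (vu X) y) ↔ φ.Eval s (Function.update U X S) R) := by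
      intro y S hS
      refine ih _ _ _ _ ?_ ?_ ?_ ?_ ?_
      · rw [Function.update_of_ne, h1]; unfold vu; omega
      · rw [Function.update_of_ne, h2]; unfold vu; omega
      · intro j hj
        rw [Function.update_of_ne (by unfold vi vu; omega)]
        exact hs j hj
      · intro X' x
        by_cases hX : X' = X
        · subst hX
          rw [Function.update_self, Function.update_self]
          exact hS x
        · rw [Function.update_of_ne hX, Function.update_of_ne (by unfold vu; omega)]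
          exact hU X' x
      · intro Y y z
        rw [Function.update_of_ne (by unfold vu vb; omega)]
        exact hR Y y z
    constructor
    · intro h S
      obtain ⟨y, hy⟩ := hF β (em '' S)
      refine (key y S ?_).1 (h y)
      intro x
      rw [hy _ (hq _ _ (hmem x))]
      constructor
      · intro hx
        exact ⟨hmem x, x, hx, rfl⟩
      · rintro ⟨-, x', hx', he⟩
        rwa [← hem he]
    · intro h y
      exact (key y {x | E (em x) y} fun _ => Iff.rfl).2 (h _)
  | allB Y φ ih =>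
    intro g s U R h1 h2 hs hU hR
    change (∀ x, Holds E (so φ) (Function.update g (vb Y) x)) ↔
      ∀ r, φ.Eval s U (Function.update R Y r)
    have key : ∀ (y : A) (r : B → B → Prop),
        (∀ x z, r x z ↔ ∃ π, E π γ ∧ E π y ∧ E (em x) π ∧ E π (em z)) →
        (Holds E (so φ) (Function.update g (vb Y) y) ↔ φ.Eval s U (Function.update R Y r)) := by
      intro y r hr
      refine ih _ _ _ _ ?_ ?_ ?_ ?_ ?_
      · rw [Function.update_of_ne, h1]; unfold vb; omega
      · rw [Function.update_of_ne, h2]; unfold vb; omega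
      · intro j hj
        rw [Function.update_of_ne (by unfold vi vb; omega)]
        exact hs j hj
      · intro X x
        rw [Function.update_of_ne (by unfold vu vb; omega)]
        exact hU X x
      · intro Y' x z
        by_cases hY : Y' = Y
        · subst hY
          rw [Function.update_self, Function.update_self]
          exact hr x z
        · rw [Function.update_of_ne hY, Function.update_of_ne (by unfold vb; omega)]
          exact hR Y' x z
    constructor
    · intro h r
      choose! π k1 k2 k3 k4 k5 using hP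
      obtain ⟨y, hy⟩ := hF γ {p | ∃ x z : B, r x z ∧ p = π (em x) (em z)}
      refine (key y r ?_).1 (h y)
      intro x z
      constructor
      · intro hxz
        have m := k1 _ (hmem x) _ (hmem z)
        exact ⟨π (em x) (em z), m, (hy _ (hq _ _ m)).2 ⟨m, x, z, hxz, rfl⟩,
          k2 _ (hmem x) _ (hmem z), k3 _ (hmem x) _ (hmem z)⟩
      · rintro ⟨p, hpγ, hpy, hxp, hpz⟩
        obtain ⟨-, x', z', hr, rfl⟩ := (hy p (hq _ _ hpγ)).1 hpy
        have e1 : x = x' := hem (k4 _ (hmem x') _ (hmem z') _ (hmem x) hxp)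
        have e2 : z = z' := hem (k5 _ (hmem x') _ (hmem z') _ (hmem z) hpz)
        rw [e1, e2]
        exact hr
    · intro h y
      exact (key y _ fun _ _ => Iff.rfl).2 (h _)

/-- the first-order formula -/
def psi3 (Θ : SO) : FO :=
  .and (.all 3 (.all 4 (.imp (.mem 3 4) (.imp (.eq 3 0) .bot))))
  (.and (.ex 3 (.mem 3 1))
  (.and (.ba 3 1 (.ba 4 1 (.be 5 2 (.and (.mem 3 5) (.and (.mem 5 4)
      (.and (.ba 6 1 (.imp (.mem 6 5) (.eq 6 3))) (.ba 6 1 (.imp (.mem 5 6) (.eq 6 4)))))))))
    (so Θ)))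

theorem holds_psi3 (E : A → A → Prop) (Θ : SO) (g : ℕ → A) : Holds E (psi3 Θ) g ↔
    (∀ x p, E x p → x ≠ g 0) ∧ (∃ x, E x (g 1)) ∧
    (∀ a, E a (g 1) → ∀ b, E b (g 1) → ∃ π, E π (g 2) ∧ E a π ∧ E π b ∧
      (∀ a', E a' (g 1) → E a' π → a' = a) ∧ (∀ b', E b' (g 1) → E π b' → b' = b)) ∧
    Holds E (so Θ) g := by
  simp [psi3, FO.ba, FO.be, Holds, Function.update]

/-- structures with full separation give models of the second-order formula -/
theorem so_down (E : A → A → Prop) (g : ℕ → A) (hF : Full (g 0) E) (Θ : SO) (hΘ : Θ.FV = ∅)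
    (h : Holds E (psi3 Θ) g) :
    ∃ B : Type v, Nonempty B ∧ #B ≤ #A ∧ #B ≤ #{x : A // x ≠ g 0} ∧ ∃ s U R, Θ.Eval (B := B) s U R := by
  rw [holds_psi3] at h
  obtain ⟨hq, ⟨x0, hx0⟩, hP, hso⟩ := h
  refine ⟨{x // E x (g 1)}, ⟨⟨x0, hx0⟩⟩, Cardinal.mk_subtype_le _, ?_, fun _ => ⟨x0, hx0⟩,
    fun X => {x | E x.1 (g (vu X))},
    fun Y x y => ∃ π, E π (g 2) ∧ E π (g (vb Y)) ∧ E x.1 π ∧ E π y.1, ?_⟩
  · refine Cardinal.mk_le_of_injective
      (f := fun z : {x // E x (g 1)} => (⟨z.1, hq _ _ z.2⟩ : {x : A // x ≠ g 0})) ?_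
    intro x y h
    have h' := congrArg Subtype.val h
    exact Subtype.ext h'
  · refine (so_truth E (g 0) (g 1) (g 2) hq hF Subtype.val Subtype.val_injective
      (fun x => ⟨fun h => ⟨⟨x, h⟩, rfl⟩, fun ⟨b, hb⟩ => hb ▸ b.2⟩) hP Θ g _ _ _ rfl rfl
      ?_ ?_ ?_).1 hso
    · intro i hi
      rw [hΘ] at hi
      exact absurd hi (Set.notMem_empty i)
    · intro X x
      exact Iff.rfl
    · intro Y x y
      exact Iff.rfl

/-- elements and pair objects -/
abbrev PC (B : Type v) : Type v := B ⊕ (B × B)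

/-- the structure made from a set `B`: elements, pair objects, their classes and an additional
element -/
abbrev SA (B : Type v) : Type v := Option (PC B ⊕ Set (PC B))

/-- `x` is a member of the pair object of `(x, y)`, which is a member of `y` -/
def e3 {B : Type v} : PC B → PC B → Prop
  | .inl x, .inr p => x = p.1
  | .inr p, .inl y => p.2 = y
  | _, _ => False

/-- membership, with classes and an additional element -/
def E3 {B : Type v} : SA B → SA B → Prop
  | some (.inl c), some (.inl d) => e3 c d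
  | some (.inl c), some (.inr Y) => c ∈ Y
  | _, _ => False

variable {B : Type v}

theorem E3_left {z y : SA B} (h : E3 z y) : ∃ c, z = some (.inl c) := by
  rcases z with _ | c | c
  · rcases y with _ | d | d <;> exact absurd h (by simp [E3])
  · exact ⟨c, rfl⟩
  · rcases y with _ | d | d <;> exact absurd h (by simp [E3])

/-- an element -/
def X3 (x : B) : SA B := some (.inl (.inl x))

/-- a class -/
def Y3 (S : Set (PC B)) : SA B := some (.inr S)

theorem E3_cls (z : SA B) (S : Set (PC B)) : E3 z (Y3 S) ↔ ∃ c, z = some (.inl c) ∧ c ∈ S := by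
  constructor
  · intro h
    obtain ⟨c, rfl⟩ := E3_left h
    exact ⟨c, rfl, h⟩
  · rintro ⟨c, rfl, h⟩
    exact h

theorem E3_beta (z : SA B) : E3 z (Y3 (Set.range (Sum.inl : B → PC B))) ↔ ∃ x, X3 x = z := by
  rw [E3_cls]
  constructor
  · rintro ⟨c, rfl, x, rfl⟩
    exact ⟨x, rfl⟩
  · rintro ⟨x, rfl⟩
    exact ⟨_, rfl, x, rfl⟩

theorem E3_gamma (z : SA B) : E3 z (Y3 (Set.range (Sum.inr : B × B → PC B))) ↔
    ∃ p, z = some (.inl (.inr p)) := by
  rw [E3_cls]
  constructor
  · rintro ⟨c, rfl, x, rfl⟩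
    exact ⟨x, rfl⟩
  · rintro ⟨x, rfl⟩
    exact ⟨_, rfl, x, rfl⟩

theorem full3 : (∀ x : SA B, ¬ E3 x x) ∧ Full (none : SA B) E3 ∧
    (∀ x p : SA B, E3 x p → x ≠ none) := by
  refine ⟨?_, ?_, ?_⟩
  · rintro (_ | (x | p) | S) h
    · exact h
    · exact h
    · exact h
    · exact h
  · intro p S
    refine ⟨Y3 {c | E3 (some (.inl c)) p ∧ some (.inl c) ∈ S}, fun z _ => ?_⟩
    rw [E3_cls]
    constructor
    · rintro ⟨c, rfl, h⟩
      exact h
    · rintro ⟨h, hS⟩
      obtain ⟨c, rfl⟩ := E3_left h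
      exact ⟨c, rfl, h, hS⟩
  · intro x p h
    obtain ⟨c, rfl⟩ := E3_left h
    exact Option.some_ne_none _

theorem pair3 (a : SA B) (ha : E3 a (Y3 (Set.range Sum.inl))) (b : SA B)
    (hb : E3 b (Y3 (Set.range Sum.inl))) :
    ∃ π : SA B, E3 π (Y3 (Set.range Sum.inr)) ∧ E3 a π ∧ E3 π b ∧
      (∀ a', E3 a' (Y3 (Set.range Sum.inl)) → E3 a' π → a' = a) ∧
      (∀ b', E3 b' (Y3 (Set.range Sum.inl)) → E3 π b' → b' = b) := by
  rw [E3_beta] at ha hb
  obtain ⟨x, rfl⟩ := ha
  obtain ⟨y, rfl⟩ := hb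
  refine ⟨some (.inl (.inr (x, y))), (E3_gamma _).2 ⟨_, rfl⟩, rfl, rfl, ?_, ?_⟩
  · intro a' ha' h
    rw [E3_beta] at ha'
    obtain ⟨x', rfl⟩ := ha'
    have : x' = x := h
    rw [this]
  · intro b' hb' h
    rw [E3_beta] at hb'
    obtain ⟨y', rfl⟩ := hb'
    have : y = y' := h
    rw [this]

/-- the assignment -/
noncomputable def g3 (s : ℕ → B) (U : ℕ → Set B) (R : ℕ → B → B → Prop) (n : ℕ) : SA B :=
  if n = 0 then none else if n = 1 then Y3 (Set.range Sum.inl)
  else if n = 2 then Y3 (Set.range Sum.inr)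
  else if n % 3 = 1 then X3 (s ((n - 4) / 3))
  else if n % 3 = 2 then Y3 (Sum.inl '' U ((n - 5) / 3))
  else Y3 (Sum.inr '' {p : B × B | R ((n - 6) / 3) p.1 p.2})

/-- models of the second-order formula give structures with full separation -/
theorem so_up (Θ : SO) (s : ℕ → B) (U : ℕ → Set B) (R : ℕ → B → B → Prop)
    (h : Θ.Eval s U R) : Holds E3 (psi3 Θ) (g3 s U R) := by
  obtain ⟨h1, h2, h3⟩ := full3 (B := B)
  have k0 : g3 s U R 0 = none := rfl
  have k1 : g3 s U R 1 = Y3 (Set.range Sum.inl) := rfl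
  have k2 : g3 s U R 2 = Y3 (Set.range Sum.inr) := rfl
  have k3 : ∀ i, g3 s U R (vi i) = X3 (s i) := by
    intro i
    have e1 : (3 * i + 4) % 3 = 1 := by omega
    have e2 : (3 * i + 4 - 4) / 3 = i := by omega
    unfold g3 vi
    rw [if_neg (by omega), if_neg (by omega), if_neg (by omega), if_pos e1, e2]
  have k4 : ∀ i, g3 s U R (vu i) = Y3 (Sum.inl '' U i) := by
    intro i
    have e1 : (3 * i + 5) % 3 = 2 := by omega
    have e2 : (3 * i + 5 - 5) / 3 = i := by omega
    unfold g3 vu
    rw [if_neg (by omega), if_neg (by omega), if_neg (by omega), if_neg (by omega), if_pos e1, e2]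
  have k5 : ∀ i, g3 s U R (vb i) = Y3 (Sum.inr '' {p : B × B | R i p.1 p.2}) := by
    intro i
    have e2 : (3 * i + 6 - 6) / 3 = i := by omega
    unfold g3 vb
    rw [if_neg (by omega), if_neg (by omega), if_neg (by omega), if_neg (by omega),
      if_neg (by omega), e2]
  rw [holds_psi3, k0, k1, k2]
  refine ⟨h3, ⟨X3 (s 0), (E3_beta _).2 ⟨_, rfl⟩⟩, pair3, ?_⟩
  refine (so_truth E3 none _ _ h3 h2 X3 (fun x y hxy => ?_) E3_beta pair3 Θ _ s U R k1 k2
    (fun i _ => k3 i) ?_ ?_).2 h
  · simpa [X3] using hxy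
  · intro X x
    rw [k4, E3_cls]
    constructor
    · intro hx
      exact ⟨_, rfl, x, hx, rfl⟩
    · rintro ⟨c, hc, x', hx', rfl⟩
      have : x = x' := by simpa [X3] using hc
      rwa [this]
  · intro Y x y
    rw [k5]
    constructor
    · intro hxy
      exact ⟨some (.inl (.inr (x, y))), (E3_gamma _).2 ⟨_, rfl⟩,
        (E3_cls _ _).2 ⟨_, rfl, (x, y), hxy, rfl⟩, rfl, rfl⟩
    · rintro ⟨p, hp, hpY, hxp, hpy⟩
      rw [E3_cls] at hpY
      obtain ⟨c, rfl, ⟨x', y'⟩, hr, rfl⟩ := hpY
      have e1 : x = x' := hxp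
      have e2 : y' = y := hpy
      rw [e1, ← e2]
      exact hr

theorem mk_SA : #(SA B) ≤ max ℵ₀ (2 ^ #B) := by
  rcases finite_or_infinite B with hf | hi
  · have : Finite (SA B) := inferInstance
    exact (Cardinal.lt_aleph0_of_finite _).le.trans (le_max_left _ _)
  · have h0 : ℵ₀ ≤ #B := Cardinal.aleph0_le_mk B
    have h1 : #(PC B) = #B := by
      rw [Cardinal.mk_sum, Cardinal.mk_prod]
      simp only [Cardinal.lift_id]
      rw [Cardinal.mul_eq_self h0, Cardinal.add_eq_self h0]
    have h2 : ℵ₀ ≤ 2 ^ #B := h0.trans (Cardinal.cantor _).le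
    refine le_trans ?_ (le_max_right _ _)
    rw [Cardinal.mk_option, Cardinal.mk_sum, Cardinal.mk_set, h1]
    simp only [Cardinal.lift_id]
    exact Cardinal.add_le_of_le h2 (Cardinal.add_le_of_le h2 (Cardinal.cantor _).le le_rfl)
      (one_lt_aleph0.le.trans h2)

end Pool.Agent.Y558.IQ
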