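import Pool.Agent.Y558.IQ.Gen
import Pool.Agent.Y558.IQ.Sol

set_option autoImplicit false

/-! InqBQ without function symbols inside second-order logic. -/

namespace Pool.Agent.Y558.IQ

open Pool.Agent.Results.MP_130315_lc.UncountableDomain Cardinal

universe a b v w

/-- derived connectives -/
def SO.nt (φ : SO) : SO := .imp φ .bot
/-- derived connectives -/
def SO.an (φ ψ : SO) : SO := .nt (.imp φ (.nt ψ))
/-- derived connectives -/
def SO.og (φ ψ : SO) : SO := .imp (.nt φ) ψ
/-- derived quantifier -/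
def SO.ex (i : ℕ) (φ : SO) : SO := .nt (.all i (.nt φ))

section
variable {B : Type v} (s : ℕ → B) (U : ℕ → Set B) (R : ℕ → B → B → Prop)

theorem ev_nt (φ : SO) : φ.nt.Eval s U R ↔ ¬ φ.Eval s U R := Iff.rfl

theorem ev_an (φ ψ : SO) : (φ.an ψ).Eval s U R ↔ φ.Eval s U R ∧ ψ.Eval s U R := by
  change ¬ (φ.Eval s U R → ¬ ψ.Eval s U R) ↔ _
  tauto

theorem ev_og (φ ψ : SO) : (φ.og ψ).Eval s U R ↔ φ.Eval s U R ∨ ψ.Eval s U R := by
  change (¬ φ.Eval s U R → ψ.Eval s U R) ↔ _
  tauto

theorem ev_ex (i : ℕ) (φ : SO) :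
    (SO.ex i φ).Eval s U R ↔ ∃ x, φ.Eval (Function.update s i x) U R := by
  change ¬ (∀ x, ¬ φ.Eval (Function.update s i x) U R) ↔ _
  rw [not_forall_not]

/-- finite conjunction -/
def SO.big (l : List SO) : SO := l.foldr SO.an (.imp .bot .bot)

theorem ev_big (l : List SO) : (SO.big l).Eval s U R ↔ ∀ θ ∈ l, θ.Eval s U R := by
  induction l with
  | nil =>
    change (False → False) ↔ _
    simp
  | cons θ l ih =>
    change ((θ.an (SO.big l)).Eval s U R) ↔ _
    rw [ev_an, ih]
    simp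

end

/-- variable of a term in a language without function symbols -/
def vx {σ : Sig.{a, b}} [IsEmpty σ.Fn] : Term σ → ℕ
  | .var n => n
  | .app f _ => isEmptyElim f

theorem val_vx {σ : Sig.{a, b}} [IsEmpty σ.Fn] (M : Model.{a, b, v, w} σ) (x : M.W)
    (g : ℕ → M.D) (t : Term σ) : t.val M x g = g (vx t) := by
  cases t with
  | var n => rfl
  | app f ts => exact (IsEmpty.false f).elim

/-- index of the state variable -/
def st (k : ℕ) : ℕ := 2 * k + 4

/-- `r` (variable 3) contains the value of `x_i` -/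
def inr3 (i : ℕ) : SO :=
  .an (.imp (.un 1 (i + 4)) (.bi 1 3 (i + 4))) (.imp (.nt (.un 1 (i + 4))) (.bi 1 3 2))

/-- `r` (variable 3) is a class at `w` (variable 0) -/
def cl3 : SO := .an (.un 2 3) (.bi 0 3 0)

/-- the translation; the state is the value of the unary variable `st k` -/
def rev {σ : Sig.{a, b}} [IsEmpty σ.Fn] (c : σ.Pred → ℕ) : Fml σ → ℕ → SO
  | .rel P ts, k => .all 0 (.imp (.un (st k) 0) (.ex 1 (.an (.un (2 * c P + 3) 1) (.an (.bi 0 1 0)
      (.big (List.ofFn fun j : Fin (σ.predAr P) =>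
        SO.ex 3 (.an (.bi (j + 2) 1 3) (.an cl3 (inr3 (vx (ts j))))))))))) 
  | .eq t t', k => .all 0 (.imp (.un (st k) 0) (.all 3 (.imp cl3
      (.an (.imp (inr3 (vx t)) (inr3 (vx t'))) (.imp (inr3 (vx t')) (inr3 (vx t)))))))
  | .bot, k => .all 0 (.nt (.un (st k) 0))
  | .and φ ψ, k => .an (rev c φ k) (rev c ψ k)
  | .ior φ ψ, k => .og (rev c φ k) (rev c ψ k)
  | .imp φ ψ, k => .allU (st (k + 1)) (.imp (.all 0 (.imp (.un (st (k + 1)) 0) (.un (st k) 0)))
      (.imp (rev c φ (k + 1)) (rev c ψ (k + 1))))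
  | .all i φ, k => .all (i + 4) (.imp (.un 1 (i + 4)) (rev c φ k))
  | .iex i φ, k => .ex (i + 4) (.an (.un 1 (i + 4)) (rev c φ k))

/-- the value of `x_i`, with default -/
noncomputable def dv {B : Type w} (U : ℕ → Set B) (s : ℕ → B) (i : ℕ) : B :=
  open Classical in if s (i + 4) ∈ U 1 then s (i + 4) else s 2

theorem ev_inr3 {B : Type w} (s : ℕ → B) (U : ℕ → Set B) (R : ℕ → B → B → Prop) (i : ℕ) :
    (inr3 i).Eval s U R ↔ R 1 (s 3) (dv U s i) := by
  unfold inr3 dv
  rw [ev_an]
  change ((s (i + 4) ∈ U 1 → R 1 (s 3) (s (i + 4))) ∧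
    (¬ s (i + 4) ∈ U 1 → R 1 (s 3) (s 2))) ↔ _
  by_cases h : s (i + 4) ∈ U 1
  · simp [h]
  · simp [h]

theorem ev_cl3 {B : Type w} (s : ℕ → B) (U : ℕ → Set B) (R : ℕ → B → B → Prop) :
    cl3.Eval s U R ↔ s 3 ∈ U 2 ∧ R 0 (s 3) (s 0) := by
  unfold cl3
  rw [ev_an]
  exact Iff.rfl

/-- The predicate symbols of a formula. -/
def prs {σ : Sig.{a, b}} : Fml σ → Set σ.Pred
  | .rel P _ => {P}
  | .eq _ _ => ∅
  | .bot => ∅
  | .and φ ψ => prs φ ∪ prs ψ
  | .ior φ ψ => prs φ ∪ prs ψ
  | .imp φ ψ => prs φ ∪ prs ψ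
  | .all _ φ => prs φ
  | .iex _ φ => prs φ

theorem prs_finite {σ : Sig.{a, b}} (φ : Fml σ) : (prs φ).Finite := by
  induction φ with
  | rel P ts => exact Set.finite_singleton P
  | eq t t' => exact Set.finite_empty
  | bot => exact Set.finite_empty
  | and φ ψ ih1 ih2 => exact ih1.union ih2
  | ior φ ψ ih1 ih2 => exact ih1.union ih2
  | imp φ ψ ih1 ih2 => exact ih1.union ih2
  | all i φ ih => exact ih
  | iex i φ ih => exact ih

/-- The model `M` is represented in the set `B` with the relations `U`, `R`, for the predicate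
symbols in `Q`. -/
structure Repr {σ : Sig.{a, b}} (Q : Set σ.Pred) (c : σ.Pred → ℕ) (M : Model.{a, b, v, v} σ) {B : Type w}
    (U : ℕ → Set B) (R : ℕ → B → B → Prop) (eW : M.W → B) (eD : M.D → B) : Prop where
  injW : Function.Injective eW
  rangeW : Set.range eW = U 0
  rangeD : Set.range eD = U 1
  sim : ∀ w x y, M.sim w x y ↔ ∀ r, r ∈ U 2 → R 0 r (eW w) → (R 1 r (eD x) ↔ R 1 r (eD y))
  pred : ∀ w, ∀ P ∈ Q, ∀ z, M.predI w P z ↔ ∃ t, t ∈ U (2 * c P + 3) ∧ R 0 t (eW w) ∧ ∀ k,
    ∃ r, R (k.val + 2) t r ∧ (r ∈ U 2 ∧ R 0 r (eW w)) ∧ R 1 r (eD (z k))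

theorem rev_truth {σ : Sig.{a, b}} [IsEmpty σ.Fn] (Q : Set σ.Pred) (c : σ.Pred → ℕ) (M : Model.{a, b, v, v} σ)
    {B : Type w} (U : ℕ → Set B) (R : ℕ → B → B → Prop) (eW : M.W → B) (eD : M.D → B)
    (h : Repr Q c M U R eW eD) (φ : Fml σ) :
    prs φ ⊆ Q → ∀ (S : Set M.W) (g : ℕ → M.D) (k : ℕ) (s : ℕ → B) (U' : ℕ → Set B),
      U' (st k) = eW '' S → (∀ j, U' j = U j ∨ ∃ l, j = st l) → (∀ i, dv U s i = eD (g i)) →
      (Supports M S g φ ↔ (rev c φ k).Eval s U' R) := by
  have hst : ∀ l, st l ≠ 0 ∧ st l ≠ 1 ∧ st l ≠ 2 ∧ ∀ m, st l ≠ 2 * m + 3 := by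
    intro l
    unfold st
    refine ⟨by omega, by omega, by omega, fun m => by omega⟩
  have hU0 : ∀ U' : ℕ → Set B, (∀ j, U' j = U j ∨ ∃ l, j = st l) → U' 1 = U 1 ∧ U' 2 = U 2 ∧
      ∀ m, U' (2 * m + 3) = U (2 * m + 3) := by
    intro U' hU'
    refine ⟨?_, ?_, fun m => ?_⟩
    · rcases hU' 1 with h | ⟨l, h⟩
      · exact h
      · exact absurd h.symm (hst l).2.1
    · rcases hU' 2 with h | ⟨l, h⟩
      · exact h
      · exact absurd h.symm (hst l).2.2.1
    · rcases hU' (2 * m + 3) with h | ⟨l, h⟩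
      · exact h
      · exact absurd h.symm ((hst l).2.2.2 m)
  have hdv : ∀ (U' : ℕ → Set B), U' 1 = U 1 → ∀ s i, dv U' s i = dv U s i := by
    intro U' h1 s i
    unfold dv
    rw [h1]
  have hdv0 : ∀ s : ℕ → B, ∀ x i, dv U (Function.update s 0 x) i = dv U s i := by
    intro s x i
    unfold dv
    rw [Function.update_of_ne (by omega), Function.update_of_ne (by omega)]
  have hdv1 : ∀ s : ℕ → B, ∀ x i, dv U (Function.update s 1 x) i = dv U s i := by
    intro s x i
    unfold dv
    rw [Function.update_of_ne (by omega), Function.update_of_ne (by omega)]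
  have hdv3 : ∀ s : ℕ → B, ∀ x i, dv U (Function.update s 3 x) i = dv U s i := by
    intro s x i
    unfold dv
    rw [Function.update_of_ne (by omega), Function.update_of_ne (by omega)]
  have hdv4 : ∀ s : ℕ → B, ∀ (g : ℕ → M.D), (∀ i, dv U s i = eD (g i)) → ∀ j d,
      ∀ i, dv U (Function.update s (j + 4) (eD d)) i = eD (Function.update g j d i) := by
    intro s g hg j d i
    by_cases hij : i = j
    · subst hij
      unfold dv
      rw [Function.update_self, Function.update_self, if_pos]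
      rw [← h.rangeD]
      exact ⟨d, rfl⟩
    · rw [Function.update_of_ne hij, ← hg]
      unfold dv
      rw [Function.update_of_ne (by omega), Function.update_of_ne (by omega)]
  induction φ with
  | rel P ts =>
    intro hQ S g k s U' hS hU' hg
    obtain ⟨hU1, hU2, hU3⟩ := hU0 U' hU'
    change (∀ w ∈ S, M.predI w P (fun i => (ts i).val M w g)) ↔
      ∀ x : B, x ∈ U' (st k) → SO.Eval _ (Function.update s 0 x) U' R
    rw [hS]
    have key : ∀ w : M.W, M.predI w P (fun i => (ts i).val M w g) ↔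
        SO.Eval (.ex 1 (.an (.un (2 * c P + 3) 1) (.an (.bi 0 1 0)
          (.big (List.ofFn fun j : Fin (σ.predAr P) =>
            SO.ex 3 (.an (.bi (j + 2) 1 3) (.an cl3 (inr3 (vx (ts j)))))))))) 
          (Function.update s 0 (eW w)) U' R := by
      intro w
      rw [h.pred w P (hQ rfl), ev_ex]
      refine exists_congr fun t => ?_
      rw [ev_an, ev_an, ev_big]
      refine and_congr ?_ (and_congr ?_ ?_)
      · change _ ↔ Function.update (Function.update s 0 (eW w)) 1 t 1 ∈ U' (2 * c P + 3)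
        rw [hU3, Function.update_self]
      · change _ ↔ R 0 (Function.update (Function.update s 0 (eW w)) 1 t 1)
          (Function.update (Function.update s 0 (eW w)) 1 t 0)
        rw [Function.update_self, Function.update_of_ne (by omega), Function.update_self]
      · rw [List.forall_mem_ofFn_iff]
        refine forall_congr' fun j => ?_
        rw [ev_ex]
        refine exists_congr fun r => ?_
        rw [ev_an, ev_an, ev_cl3, ev_inr3, hdv U' hU1, hdv3, hdv1, hdv0, hg, val_vx]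
        refine and_congr ?_ (and_congr (and_congr ?_ ?_) ?_)
        · change _ ↔ R (j.val + 2) (Function.update (Function.update (Function.update s 0 (eW w))
            1 t) 3 r 1) (Function.update (Function.update (Function.update s 0 (eW w)) 1 t) 3 r 3)
          rw [Function.update_self, Function.update_of_ne (by omega), Function.update_self]
        · rw [Function.update_self, hU2]
        · rw [Function.update_self, Function.update_of_ne (by omega),
            Function.update_of_ne (by omega), Function.update_self]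
        · rw [Function.update_self]
    constructor
    · rintro hh _ ⟨w, hw, rfl⟩
      exact (key w).1 (hh w hw)
    · intro hh w hw
      exact (key w).2 (hh _ ⟨w, hw, rfl⟩)
  | eq t t' =>
    intro hQ S g k s U' hS hU' hg
    obtain ⟨hU1, hU2, hU3⟩ := hU0 U' hU'
    change (∀ w ∈ S, M.sim w (t.val M w g) (t'.val M w g)) ↔
      ∀ x : B, x ∈ U' (st k) → SO.Eval _ (Function.update s 0 x) U' R
    rw [hS]
    have key : ∀ w : M.W, M.sim w (t.val M w g) (t'.val M w g) ↔
        SO.Eval (.all 3 (.imp cl3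
          (.an (.imp (inr3 (vx t)) (inr3 (vx t'))) (.imp (inr3 (vx t')) (inr3 (vx t))))))
          (Function.update s 0 (eW w)) U' R := by
      intro w
      rw [h.sim, val_vx, val_vx]
      change _ ↔ ∀ r, SO.Eval cl3 (Function.update (Function.update s 0 (eW w)) 3 r) U' R →
        SO.Eval _ (Function.update (Function.update s 0 (eW w)) 3 r) U' R
      refine forall_congr' fun r => ?_
      rw [ev_cl3, ev_an]
      change _ ↔ (_ → ((inr3 (vx t)).Eval _ _ _ → (inr3 (vx t')).Eval _ _ _) ∧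
        ((inr3 (vx t')).Eval _ _ _ → (inr3 (vx t)).Eval _ _ _))
      rw [ev_inr3, ev_inr3, hdv U' hU1, hdv U' hU1, hdv3, hdv3, hdv0, hdv0, hg, hg,
        Function.update_self, Function.update_of_ne (by omega), Function.update_self, hU2]
      tauto
    constructor
    · rintro hh _ ⟨w, hw, rfl⟩
      exact (key w).1 (hh w hw)
    · intro hh w hw
      exact (key w).2 (hh _ ⟨w, hw, rfl⟩)
  | bot =>
    intro hQ S g k s U' hS hU' hg
    change S = ∅ ↔ ∀ x : B, ¬ Function.update s 0 x 0 ∈ U' (st k)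
    simp only [Function.update_self]
    rw [hS]
    constructor
    · rintro rfl x ⟨w, hw, -⟩
      exact hw
    · intro hh
      rw [Set.eq_empty_iff_forall_notMem]
      intro w hw
      exact hh _ ⟨w, hw, rfl⟩
  | and φ ψ ih1 ih2 =>
    intro hQ S g k s U' hS hU' hg
    change (Supports M S g φ ∧ Supports M S g ψ) ↔ ((rev c φ k).an (rev c ψ k)).Eval s U' R
    rw [ev_an, ih1 (fun P hP => hQ (Or.inl hP)) S g k s U' hS hU' hg, ih2 (fun P hP => hQ (Or.inr hP)) S g k s U' hS hU' hg]
  | ior φ ψ ih1 ih2 =>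
    intro hQ S g k s U' hS hU' hg
    change (Supports M S g φ ∨ Supports M S g ψ) ↔ ((rev c φ k).og (rev c ψ k)).Eval s U' R
    rw [ev_og, ih1 (fun P hP => hQ (Or.inl hP)) S g k s U' hS hU' hg, ih2 (fun P hP => hQ (Or.inr hP)) S g k s U' hS hU' hg]
  | imp φ ψ ih1 ih2 =>
    intro hQ S g k s U' hS hU' hg
    change (∀ T : Set M.W, T ⊆ S → Supports M T g φ → Supports M T g ψ) ↔
      ∀ X : Set B, (∀ x, Function.update s 0 x 0 ∈ Function.update U' (st (k + 1)) X (st (k + 1)) →
        Function.update s 0 x 0 ∈ Function.update U' (st (k + 1)) X (st k)) →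
        (rev c φ (k + 1)).Eval s (Function.update U' (st (k + 1)) X) R →
        (rev c ψ (k + 1)).Eval s (Function.update U' (st (k + 1)) X) R
    have e1 : ∀ X : Set B, Function.update U' (st (k + 1)) X (st k) = eW '' S := by
      intro X
      rw [Function.update_of_ne (by unfold st; omega), hS]
    have e2 : ∀ X : Set B, ∀ j, Function.update U' (st (k + 1)) X j = U j ∨ ∃ l, j = st l := by
      intro X j
      by_cases hj : j = st (k + 1)
      · exact Or.inr ⟨_, hj⟩
      · rw [Function.update_of_ne hj]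
        exact hU' j
    constructor
    · intro hh X hX h1
      simp only [Function.update_self, e1] at hX
      have hXT : X = eW '' (eW ⁻¹' X) := by
        rw [Set.image_preimage_eq_of_subset]
        exact fun x hx => by
          obtain ⟨w, -, hw⟩ := hX x hx
          exact ⟨w, hw⟩
      have e3 : Function.update U' (st (k + 1)) X (st (k + 1)) = eW '' (eW ⁻¹' X) := by
        rw [Function.update_self]
        exact hXT
      refine (ih2 (fun P hP => hQ (Or.inr hP)) (eW ⁻¹' X) g (k + 1) s _ e3 (e2 X) hg).1 (hh _ ?_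
        ((ih1 (fun P hP => hQ (Or.inl hP)) (eW ⁻¹' X) g (k + 1) s _ e3 (e2 X) hg).2 h1))
      intro w hw
      obtain ⟨w', hw', he⟩ := hX _ hw
      rwa [← h.injW he]
    · intro hh T hT h1
      have e3 : Function.update U' (st (k + 1)) (eW '' T) (st (k + 1)) = eW '' T :=
        Function.update_self _ _ _
      refine (ih2 (fun P hP => hQ (Or.inr hP)) T g (k + 1) s _ e3 (e2 _) hg).2 (hh (eW '' T) ?_
        ((ih1 (fun P hP => hQ (Or.inl hP)) T g (k + 1) s _ e3 (e2 _) hg).1 h1))
      intro x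
      simp only [Function.update_self, e1]
      rintro ⟨w, hw, rfl⟩
      exact ⟨w, hT hw, rfl⟩
  | all i φ ih =>
    intro hQ S g k s U' hS hU' hg
    obtain ⟨hU1, hU2, hU3⟩ := hU0 U' hU'
    change (∀ d : M.D, Supports M S (Function.update g i d) φ) ↔
      ∀ x : B, Function.update s (i + 4) x (i + 4) ∈ U' 1 →
        (rev c φ k).Eval (Function.update s (i + 4) x) U' R
    simp only [Function.update_self, hU1]
    rw [← h.rangeD]
    constructor
    · rintro hh _ ⟨d, rfl⟩
      exact (ih hQ S _ k _ U' hS hU' (hdv4 s g hg i d)).1 (hh d)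
    · intro hh d
      exact (ih hQ S _ k _ U' hS hU' (hdv4 s g hg i d)).2 (hh _ ⟨d, rfl⟩)
  | iex i φ ih =>
    intro hQ S g k s U' hS hU' hg
    obtain ⟨hU1, hU2, hU3⟩ := hU0 U' hU'
    change (∃ d : M.D, Supports M S (Function.update g i d) φ) ↔
      (SO.ex (i + 4) ((SO.un 1 (i + 4)).an (rev c φ k))).Eval s U' R
    rw [ev_ex]
    have e4 : ∀ x : B, ((SO.un 1 (i + 4)).an (rev c φ k)).Eval (Function.update s (i + 4) x) U' R ↔
        x ∈ Set.range eD ∧ (rev c φ k).Eval (Function.update s (i + 4) x) U' R := by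
      intro x
      rw [ev_an]
      change (Function.update s (i + 4) x (i + 4) ∈ U' 1 ∧ _) ↔ _
      rw [Function.update_self, hU1, h.rangeD]
    constructor
    · rintro ⟨d, hd⟩
      exact ⟨eD d, (e4 _).2 ⟨⟨d, rfl⟩, (ih hQ S _ k _ U' hS hU' (hdv4 s g hg i d)).1 hd⟩⟩
    · rintro ⟨x, hx⟩
      obtain ⟨⟨d, rfl⟩, hx⟩ := (e4 x).1 hx
      exact ⟨d, (ih hQ S _ k _ U' hS hU' (hdv4 s g hg i d)).2 hx⟩

end Pool.Agent.Y558.IQ
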