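import Pool.Agent.Y558.IQ.Inac
import Mathlib.SetTheory.ZFC.Ordinal

set_option autoImplicit false

/-! The structure of all sets of a universe, with pair objects and classes. -/

namespace Pool.Agent.Y558.IQ

open Cardinal Ordinal

universe w

/-- sets and pair objects -/
abbrev CC : Type (w + 1) := ZFSet.{w} ⊕ (ZFSet.{w} × ZFSet.{w})

/-- membership between sets; `x` is a member of the pair object of `(x, y)`, which is a member
of `y` -/
def ec : CC.{w} → CC.{w} → Prop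
  | .inl x, .inl y => x ∈ y
  | .inl x, .inr p => x = p.1
  | .inr p, .inl y => p.2 = y
  | .inr _, .inr _ => False

/-- membership, with classes and an additional element -/
def E2 : Option (CC.{w} ⊕ Set CC.{w}) → Option (CC.{w} ⊕ Set CC.{w}) → Prop
  | some (.inl c), some (.inl d) => ec c d
  | some (.inl c), some (.inr Y) => c ∈ Y
  | _, _ => False

theorem E2_left {z y : Option (CC.{w} ⊕ Set CC.{w})} (h : E2 z y) :
    ∃ c, z = some (.inl c) := by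
  rcases z with _ | c | c
  · rcases y with _ | d | d <;> exact absurd h (by simp [E2])
  · exact ⟨c, rfl⟩
  · rcases y with _ | d | d <;> exact absurd h (by simp [E2])

/-- a set as an element -/
def X (x : ZFSet.{w}) : Option (CC.{w} ⊕ Set CC.{w}) := some (.inl (.inl x))

/-- a class as an element -/
def Y (S : Set CC.{w}) : Option (CC.{w} ⊕ Set CC.{w}) := some (.inr S)

theorem E2_X (x y : ZFSet.{w}) : E2 (X x) (X y) ↔ x ∈ y := Iff.rfl

theorem E2_cls (z) (S : Set CC.{w}) : E2 z (Y S) ↔ ∃ c, z = some (.inl c) ∧ c ∈ S := by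
  constructor
  · intro h
    obtain ⟨c, rfl⟩ := E2_left h
    exact ⟨c, rfl, h⟩
  · rintro ⟨c, rfl, h⟩
    exact h

theorem E2_beta (z) : E2 z (Y (Set.range (Sum.inl : ZFSet.{w} → CC.{w}))) ↔ ∃ x, z = X x := by
  rw [E2_cls]
  constructor
  · rintro ⟨c, rfl, x, rfl⟩
    exact ⟨x, rfl⟩
  · rintro ⟨x, rfl⟩
    exact ⟨_, rfl, x, rfl⟩

theorem E2_gamma (z) : E2 z (Y (Set.range (Sum.inr : ZFSet.{w} × ZFSet.{w} → CC.{w}))) ↔
    ∃ p, z = some (.inl (.inr p)) := by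
  rw [E2_cls]
  constructor
  · rintro ⟨c, rfl, x, rfl⟩
    exact ⟨x, rfl⟩
  · rintro ⟨x, rfl⟩
    exact ⟨_, rfl, x, rfl⟩

theorem model2 : (∀ x, ¬ E2.{w} x x) ∧ Full none E2.{w} ∧ Sem2 E2.{w} none := by
  refine ⟨?_, ?_, ?_, Y (Set.range Sum.inl), Y (Set.range Sum.inr), ?_, ?_, ?_, ?_⟩
  · rintro (_ | (x | p) | S) h
    · exact h
    · exact ZFSet.mem_irrefl x h
    · exact h
    · exact h
  · intro p S
    refine ⟨Y {c | E2 (some (.inl c)) p ∧ some (.inl c) ∈ S}, fun z _ => ?_⟩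
    rw [E2_cls]
    constructor
    · rintro ⟨c, rfl, h⟩
      exact h
    · rintro ⟨h, hS⟩
      obtain ⟨c, rfl⟩ := E2_left h
      exact ⟨c, rfl, h, hS⟩
  · intro x p h
    obtain ⟨c, rfl⟩ := E2_left h
    exact Option.some_ne_none _
  · intro a ha b hb
    rw [E2_beta] at ha hb
    obtain ⟨x, rfl⟩ := ha
    obtain ⟨y, rfl⟩ := hb
    refine ⟨some (.inl (.inr (x, y))), (E2_gamma _).2 ⟨_, rfl⟩, rfl, rfl, ?_, ?_⟩
    · intro a' ha' h
      rw [E2_beta] at ha'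
      obtain ⟨x', rfl⟩ := ha'
      have : x' = x := h
      rw [this]
    · intro b' hb' h
      rw [E2_beta] at hb'
      obtain ⟨y', rfl⟩ := hb'
      have : y = y' := h
      rw [this]
  · refine ⟨X (toZFSet ω), (E2_beta _).2 ⟨_, rfl⟩, ⟨X (toZFSet 0), (E2_beta _).2 ⟨_, rfl⟩, ?_⟩,
      ?_, ?_⟩
    · rw [E2_X, Ordinal.mem_toZFSet_iff]
      exact ⟨0, omega0_pos, rfl⟩
    · intro z hz hzc
      rw [E2_beta] at hz
      obtain ⟨x, rfl⟩ := hz
      rw [E2_X, Ordinal.mem_toZFSet_iff] at hzc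
      obtain ⟨a, ha, rfl⟩ := hzc
      refine ⟨X (toZFSet (a + 1)), (E2_beta _).2 ⟨_, rfl⟩, ?_, ?_⟩
      · rw [E2_X, Ordinal.toZFSet_mem_toZFSet_iff]
        exact isSuccLimit_omega0.add_one_lt ha
      · rw [E2_X, Ordinal.toZFSet_mem_toZFSet_iff]
        exact lt_add_one a
    · intro x hx y hy z hz hxy hyz hxc hyc hzc
      rw [E2_beta] at hx hy hz
      obtain ⟨x, rfl⟩ := hx
      obtain ⟨y, rfl⟩ := hy
      obtain ⟨z, rfl⟩ := hz
      rw [E2_X, Ordinal.mem_toZFSet_iff] at hxc hyc hzc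
      obtain ⟨a, ha, rfl⟩ := hxc
      obtain ⟨b, hb, rfl⟩ := hyc
      obtain ⟨c, hc, rfl⟩ := hzc
      rw [E2_X, Ordinal.toZFSet_mem_toZFSet_iff] at hxy hyz ⊢
      exact hxy.trans hyz
  · intro p hp
    rw [E2_beta] at hp
    obtain ⟨s, rfl⟩ := hp
    refine ⟨X s.powerset, (E2_beta _).2 ⟨_, rfl⟩, fun y => ?_⟩
    refine ⟨X (s.sep fun t => E2 (X t) y), (E2_beta _).2 ⟨_, rfl⟩, ?_, ?_⟩
    · rw [E2_X, ZFSet.mem_powerset]
      intro t ht
      exact (ZFSet.mem_sep.1 ht).1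
    · intro z hz
      rw [E2_beta] at hz
      obtain ⟨t, rfl⟩ := hz
      rw [E2_X, E2_X, ZFSet.mem_sep]
  · intro x hx F hF
    rw [E2_beta] at hx
    obtain ⟨s, rfl⟩ := hx
    have key : ∀ a : {a // a ∈ s}, ∃ b : ZFSet.{w}, E2 (some (.inl (.inr (a.1, b)))) F := by
      intro a
      obtain ⟨b, hb, π, hπ, hπF, haπ, hπb⟩ := hF (X a.1) ((E2_beta _).2 ⟨_, rfl⟩) a.2
      rw [E2_beta] at hb
      rw [E2_gamma] at hπ
      obtain ⟨b, rfl⟩ := hb
      obtain ⟨⟨a', b'⟩, rfl⟩ := hπ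
      have e1 : a.1 = a' := haπ
      have e2 : b' = b := hπb
      rw [e1]
      exact ⟨b', hπF⟩
    choose f hf using key
    have : Small.{w} {a // a ∈ s} := inferInstance
    refine ⟨X (ZFSet.iUnion f), (E2_beta _).2 ⟨_, rfl⟩, ?_⟩
    intro a ha has
    rw [E2_beta] at ha
    obtain ⟨a, rfl⟩ := ha
    rw [E2_X] at has
    refine ⟨X (f ⟨a, has⟩), (E2_beta _).2 ⟨_, rfl⟩, ⟨some (.inl (.inr (a, f ⟨a, has⟩))),
      (E2_gamma _).2 ⟨_, rfl⟩, hf ⟨a, has⟩, rfl, rfl⟩, ?_⟩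
    intro z hz hzb
    rw [E2_beta] at hz
    obtain ⟨z, rfl⟩ := hz
    rw [E2_X] at hzb ⊢
    exact ZFSet.mem_iUnion.2 ⟨_, hzb⟩

end Pool.Agent.Y558.IQ
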